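import Pool.Agent.H52.XH.Targets
import Pool.Agent.H7.HD.All6
import Pool.Agent.H69.HD9.Y4

/-!
# Elementary embeddings which are elements of HOD: module CLO (MP_e37c09_lc)
-/

open Ordinal Cardinal Order Set
open scoped ZFSet

universe u

namespace Pool.Agent.H52.XH

open _root_.HD Pool.Agent.H54.WM

/-- almost all `γ < K` have the property `P` -/
def Alm (K : Cardinal.{u}) (P : Ordinal.{u} → Prop) : Prop :=
  ∃ C, Clb K.ord C ∧ ∀ γ ∈ C, γ < K.ord → P γ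

theorem Alm.and {K : Cardinal.{u}} (hK : ℵ₀ < K.ord.cof) {P Q : Ordinal.{u} → Prop}
    (hP : Alm K P) (hQ : Alm K Q) : Alm K fun γ => P γ ∧ Q γ := by
  obtain ⟨C, hC, h⟩ := hP
  obtain ⟨C', hC', h'⟩ := hQ
  exact ⟨C ∩ C', All.ci _ _ _ hK hC hC', fun γ hγ hγK => ⟨h γ hγ.1 hγK, h' γ hγ.2 hγK⟩⟩

theorem pf_CLO (hCR : T_CR.{u}) : T_CLO.{u} := by
  intro K hK hK0 β hβ E hE
  have hKc : ℵ₀ < K.ord.cof := by rw [hK.cof_ord]; exact hK0
  have hlim : IsSuccLimit K.ord := Cardinal.isSuccLimit_ord hK0.le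
  have h0K : 0 < K.ord := hlim.bot_lt
  have hcr : ∀ R : Ordinal.{u} → Ordinal.{u} → Ordinal.{u} → Prop,
      (∀ a < K.ord, ∀ b < K.ord, ∃ c < K.ord, R a b c) →
        Alm K fun γ => 0 < γ ∧ ∀ a < γ, ∀ b < γ, ∃ c < γ, R a b c := fun R hR => hCR K hK hK0 R hR
  have hel : Alm K fun γ => ∀ (φ : Fml) (v : ℕ → ZFSet.{u}), (∀ n, v n ∈ XS β E γ) →
      (Sat (· ∈ XS β E γ) φ v ↔ Sat (· ∈ HV β) φ v) := by
    obtain ⟨C0, hC0, h0⟩ := Pool.Agent.H69.HD9.Y4.X K hK hK0 E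
    refine ⟨C0, hC0, fun γ hγ hγK φ v hv => ?_⟩
    have e1 : (fun x => ∃ ζ < γ, x = E ζ) = (· ∈ XS β E γ) := by
      funext x
      apply propext
      rw [mem_XS' hE hγK.le]
      exact ⟨fun ⟨ζ, h1, h2⟩ => ⟨ζ, h1, h2.symm⟩, fun ⟨ζ, h1, h2⟩ => ⟨ζ, h1, h2.symm⟩⟩
    have e2 : (fun x => ∃ ζ < K.ord, x = E ζ) = (· ∈ HV β) := by
      funext x
      apply propext
      constructor
      · rintro ⟨ζ, h1, rfl⟩
        exact hE.map ζ h1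
      · intro hx
        obtain ⟨ζ, h1, rfl⟩ := hE.onto x hx
        exact ⟨ζ, h1, rfl⟩
    have := h0 γ hγ hγK φ v fun n => by
      obtain ⟨ζ, h1, h2⟩ := (mem_XS' hE hγK.le).1 (hv n)
      exact ⟨ζ, h1, h2.symm⟩
    rwa [e1, e2] at this
  have h1 := hcr (fun a _ c => ∀ b' < K.ord, E a = b'.toZFSet → b' < c) (fun a ha _ _ => by
    by_cases h : ∃ b' < K.ord, E a = b'.toZFSet
    · obtain ⟨b', hb, he⟩ := h
      refine ⟨succ b', hlim.succ_lt hb, fun b'' _ he' => ?_⟩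
      rw [toZFSet_injective (he'.symm.trans he)]
      exact lt_succ _
    · exact ⟨0, h0K, fun b' hb he => absurd ⟨b', hb, he⟩ h⟩)
  have h2 := hcr (fun a _ c => E c = a.toZFSet) fun a ha _ _ =>
    hE.onto _ (ord_mem_HV.2 (ha.trans hβ))
  have h3 := hcr (fun a _ c => K.ord + a < β → E c = (K.ord + a).toZFSet) fun a ha _ _ => by
    by_cases h : K.ord + a < β
    · obtain ⟨c, hc, h'⟩ := hE.onto _ (ord_mem_HV.2 h)
      exact ⟨c, hc, fun _ => h'⟩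
    · exact ⟨0, h0K, fun h' => absurd h' h⟩
  have h4 := hcr (fun _ _ c => E c = K.ord.toZFSet) fun _ _ _ _ => hE.onto _ (ord_mem_HV.2 hβ)
  have h5 := hcr (fun a _ c => E c = (E a).rank.toZFSet) fun a ha _ _ =>
    hE.onto _ (ord_mem_HV.2 (rank_lt_of_HV (hE.map a ha)))
  have h6 := hcr (fun a b c => ∀ d, E b = d.toZFSet → d < (E a).rank →
      E c ∈ E a ∧ d ≤ (E c).rank) fun a ha b _ => by
    by_cases h : ∃ d : Ordinal.{u}, E b = d.toZFSet ∧ d < (E a).rank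
    · obtain ⟨d, hd1, hd2⟩ := h
      obtain ⟨w, hw, hdw⟩ : ∃ w ∈ E a, d ≤ w.rank := by
        by_contra hcon
        push Not at hcon
        exact absurd (ZFSet.rank_le_iff.2 fun w hw => hcon w hw) (not_le.2 hd2)
      obtain ⟨c, hc, rfl⟩ := hE.onto w (HV_tra (hE.map a ha) hw)
      refine ⟨c, hc, fun d' hd' _ => ⟨hw, ?_⟩⟩
      rw [toZFSet_injective (hd'.symm.trans hd1)]
      exact hdw
    · exact ⟨0, h0K, fun d hd1 hd2 => absurd ⟨d, hd1, hd2⟩ h⟩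
  have h7 := hcr (fun a b c => E a ≠ E b → ¬ (E c ∈ E a ↔ E c ∈ E b)) fun a ha b hb => by
    by_cases h : E a = E b
    · exact ⟨0, h0K, fun h' => absurd h h'⟩
    · obtain ⟨w, hw⟩ : ∃ w, ¬ (w ∈ E a ↔ w ∈ E b) := by
        by_contra hcon
        push Not at hcon
        exact h (ZFSet.ext fun w => hcon w)
      have hwH : w ∈ HV β := by
        by_cases hwa : w ∈ E a
        · exact HV_tra (hE.map a ha) hwa
        · have hwb : w ∈ E b := by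
            by_contra hwb
            exact hw ⟨fun h => absurd h hwa, fun h => absurd h hwb⟩
          exact HV_tra (hE.map b hb) hwb
      obtain ⟨c, hc, rfl⟩ := hE.onto w hwH
      exact ⟨c, hc, fun _ => hw⟩
  have h8 := hcr (fun a _ c => a < c) fun a ha _ _ => ⟨succ a, hlim.succ_lt ha, lt_succ a⟩
  have h9 := hcr (fun _ _ c => ∀ η < K.ord, β = K.ord + η → η < c) fun _ _ _ _ => by
    by_cases h : ∃ η < K.ord, β = K.ord + η
    · obtain ⟨η, hη, he⟩ := h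
      refine ⟨succ η, hlim.succ_lt hη, fun η' _ he' => ?_⟩
      have : η' = η := by
        have h' := he'.symm.trans he
        exact (add_right_inj _).1 h'
      rw [this]
      exact lt_succ _
    · exact ⟨0, h0K, fun η hη he => absurd ⟨η, hη, he⟩ h⟩
  obtain ⟨C, hC, hC'⟩ := hel.and hKc (h1.and hKc (h2.and hKc (h3.and hKc (h4.and hKc
    (h5.and hKc (h6.and hKc (h7.and hKc (h8.and hKc h9))))))))
  refine ⟨C, hC, fun γ hγ hγK => ?_⟩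
  obtain ⟨k0, ⟨hp, k1⟩, ⟨-, k2⟩, ⟨-, k3⟩, ⟨-, k4⟩, ⟨-, k5⟩, ⟨-, k6⟩, ⟨-, k7⟩, ⟨-, k8⟩,
    ⟨-, k9⟩⟩ := hC' γ hγ hγK
  have hmem : ∀ {x}, x ∈ XS β E γ ↔ ∃ ζ < γ, E ζ = x := mem_XS' hE hγK.le
  refine ⟨⟨?_, fun a ha => ?_⟩, fun η hη he => ?_, ?_, k0, fun a ha => ?_, ?_, fun x hx => ?_,
    fun x hx a ha haX => ?_, fun x hx y hy hxy => ?_, fun η hη h => ?_⟩
  · exact fun h => absurd (h (b := 0) bot_le) (not_le.2 hp)
  · obtain ⟨c, hc, hac⟩ := k8 a ha.lt a ha.lt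
    exact ha.2 hac hc
  · obtain ⟨c, hc, h⟩ := k9 0 hp 0 hp
    exact (h η hη he).trans hc
  · intro x hx
    exact (mem_XS.1 hx).1
  · constructor
    · intro h
      obtain ⟨ζ, hζ, he⟩ := hmem.1 h
      obtain ⟨c, hc, h'⟩ := k1 ζ hζ ζ hζ
      exact (h' a ha he).trans hc
    · intro h
      obtain ⟨c, hc, h'⟩ := k2 a h a h
      exact hmem.2 ⟨c, hc, h'⟩
  · obtain ⟨c, hc, h⟩ := k4 0 hp 0 hp
    exact hmem.2 ⟨c, hc, h⟩
  · obtain ⟨ζ, hζ, rfl⟩ := hmem.1 hx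
    obtain ⟨c, hc, h⟩ := k5 ζ hζ ζ hζ
    exact hmem.2 ⟨c, hc, h⟩
  · obtain ⟨ζ, hζ, rfl⟩ := hmem.1 hx
    obtain ⟨ξ, hξ, h'⟩ := hmem.1 haX
    obtain ⟨c, hc, h⟩ := k6 ζ hζ ξ hξ
    obtain ⟨g1, g2⟩ := h a h' ha
    exact ⟨_, g1, hmem.2 ⟨c, hc, rfl⟩, g2⟩
  · obtain ⟨ζ, hζ, rfl⟩ := hmem.1 hx
    obtain ⟨ξ, hξ, rfl⟩ := hmem.1 hy
    by_contra hne
    obtain ⟨c, hc, h⟩ := k7 ζ hζ ξ hξ
    exact h hne (hxy _ (hmem.2 ⟨c, hc, rfl⟩))
  · obtain ⟨c, hc, h'⟩ := k3 η hη η hη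
    exact hmem.2 ⟨c, hc, h' h⟩

end Pool.Agent.H52.XH
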