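import Pool.Agent.H52.XH.Targets

/-!
# Elementary embeddings which are elements of HOD: the collapse, modules CP, OC, OV, OB, RK
(MP_e37c09_lc)
-/

open Ordinal Cardinal Order Set
open scoped ZFSet

universe u

namespace Pool.Agent.H52.XH

open _root_.HD Pool.Agent.H54.WM

theorem pf_CP : T_CP.{u} := by
  intro X hX
  have hinj : ∀ x : ZFSet.{u}, ∀ y, x ∈ X → y ∈ X → cps X x = cps X y → x = y := by
    intro x
    induction x using ZFSet.inductionOn with
    | _ x ih =>
      intro y hx hy h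
      refine hX x hx y hy fun z hz => ?_
      constructor
      · intro hzx
        have h1 : cps X z ∈ cps X y := by
          rw [← h]
          exact mem_cps.2 ⟨z, hzx, hz, rfl⟩
        obtain ⟨z', h2, h3, h4⟩ := mem_cps.1 h1
        rw [ih z hzx z' hz h3 h4.symm]
        exact h2
      · intro hzy
        have h1 : cps X z ∈ cps X x := by
          rw [h]
          exact mem_cps.2 ⟨z, hzy, hz, rfl⟩
        obtain ⟨z', h2, h3, h4⟩ := mem_cps.1 h1
        rw [← ih z' h2 z h3 hz h4]
        exact h2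
  refine ⟨fun x hx y hy h => hinj x y hx hy h, fun x hx y hy => ⟨fun h => ?_,
    fun h => mem_cps.2 ⟨x, h, hx, rfl⟩⟩⟩
  obtain ⟨z, h1, h2, h3⟩ := mem_cps.1 h
  rw [← hinj z x h2 hx h3]
  exact h1

theorem pf_OC : T_OC.{u} := by
  intro X
  have key : ∀ a : Ordinal.{u}, cps X a.toZFSet = (oc X a).toZFSet ∧
      ∀ c < oc X a, ∃ b < a, b.toZFSet ∈ X ∧ oc X b = c := by
    intro a
    induction a using WellFoundedLT.induction with
    | ind a ih =>
      have hel : ∀ z, z ∈ cps X a.toZFSet ↔ ∃ b < a, b.toZFSet ∈ X ∧ z = (oc X b).toZFSet := by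
        intro z
        rw [mem_cps]
        constructor
        · rintro ⟨y, h1, h2, rfl⟩
          obtain ⟨b, hb, rfl⟩ := mem_toZFSet_iff.1 h1
          exact ⟨b, hb, h2, (ih b hb).1⟩
        · rintro ⟨b, hb, h1, rfl⟩
          exact ⟨_, toZFSet_mem_toZFSet_iff.2 hb, h1, (ih b hb).1⟩
      have hord : (cps X a.toZFSet).IsOrdinal := by
        rw [ZFSet.isOrdinal_iff_forall_mem_isOrdinal]
        constructor
        · intro z hz w hw
          obtain ⟨b, hb, h1, rfl⟩ := (hel z).1 hz
          obtain ⟨c, hc, rfl⟩ := mem_toZFSet_iff.1 hw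
          obtain ⟨b', hb', h2, h3⟩ := (ih b hb).2 c hc
          exact (hel _).2 ⟨b', hb'.trans hb, h2, by rw [h3]⟩
        · intro z hz
          obtain ⟨b, hb, h1, rfl⟩ := (hel z).1 hz
          exact ZFSet.isOrdinal_toZFSet _
      have he : cps X a.toZFSet = (oc X a).toZFSet := hord.toZFSet_rank_eq.symm
      refine ⟨he, fun c hc => ?_⟩
      have h1 : c.toZFSet ∈ cps X a.toZFSet := by
        rw [he]
        exact toZFSet_mem_toZFSet_iff.2 hc
      obtain ⟨b, hb, h2, h3⟩ := (hel _).1 h1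
      exact ⟨b, hb, h2, (toZFSet_injective h3).symm⟩
  refine ⟨fun a => (key a).1, fun a b h1 h2 => ?_, fun b c h => (key b).2 c h⟩
  rw [← toZFSet_mem_toZFSet_iff, ← (key a).1, ← (key b).1]
  exact mem_cps.2 ⟨_, toZFSet_mem_toZFSet_iff.2 h2, h1, rfl⟩

theorem oc_mono (hOC : T_OC.{u}) (X : ZFSet.{u}) {a b : Ordinal.{u}} (h : a ≤ b) :
    oc X a ≤ oc X b := by
  obtain ⟨-, h2, h3⟩ := hOC X
  by_contra hlt
  push Not at hlt
  obtain ⟨a', h4, h5, h6⟩ := h3 a _ hlt
  have := h2 a' b h5 (h4.trans_le h)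
  rw [h6] at this
  exact lt_irrefl _ this

theorem pf_OV (hOC : T_OC.{u}) : T_OV.{u} := by
  intro κ β γ X hX hγ hκ
  obtain ⟨-, h2, h3⟩ := hOC X
  have hlow : ∀ a : Ordinal.{u}, a ≤ γ → oc X a = a := by
    intro a
    induction a using WellFoundedLT.induction with
    | ind a ih =>
      intro ha
      apply le_antisymm
      · by_contra hlt
        push Not at hlt
        obtain ⟨b, hb, h4, h5⟩ := h3 a a hlt
        rw [ih b hb (hb.le.trans ha)] at h5
        exact absurd hb (by rw [h5]; exact lt_irrefl _)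
      · by_contra hlt
        push Not at hlt
        have h4 : (oc X a).toZFSet ∈ X :=
          (hX.seg _ (hlt.trans_le (ha.trans hγ))).2 (hlt.trans_le ha)
        have h5 := h2 _ a h4 hlt
        rw [ih _ hlt (hlt.le.trans ha)] at h5
        exact lt_irrefl _ h5
  have hkap : oc X κ = γ := by
    apply le_antisymm
    · by_contra hlt
      push Not at hlt
      obtain ⟨b, hb, h4, h5⟩ := h3 κ γ hlt
      have h6 := (hX.seg b hb).1 h4
      rw [hlow b h6.le] at h5
      exact absurd h6 (by rw [h5]; exact lt_irrefl _)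
    · have := oc_mono hOC X hγ
      rwa [hlow γ le_rfl] at this
  refine ⟨hlow, hkap, ?_⟩
  intro η
  induction η using WellFoundedLT.induction with
  | ind η ih =>
    intro hη hβ
    apply le_antisymm
    · by_contra hlt
      push Not at hlt
      obtain ⟨b, hb, h4, h5⟩ := h3 _ _ hlt
      rcases lt_or_ge b κ with h6 | h6
      · have h7 := (hX.seg b h6).1 h4
        rw [hlow b h7.le] at h5
        exact absurd (h7.trans_le le_self_add) (by rw [h5]; exact lt_irrefl _)
      · obtain ⟨m, rfl⟩ := exists_add_of_le h6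
        have hm : m < η := (add_lt_add_iff_left κ).1 hb
        have h8 := ih m hm (hm.le.trans hη) (hb.le.trans hβ)
        rw [h8] at h5
        exact hm.ne ((add_right_inj _).1 h5)
    · by_contra hlt
      push Not at hlt
      rcases lt_or_ge (oc X (κ + η)) γ with h6 | h6
      · have := oc_mono hOC X (le_self_add : κ ≤ κ + η)
        rw [hkap] at this
        exact absurd h6 (not_lt.2 this)
      · obtain ⟨m, hm⟩ := exists_add_of_le h6
        have hmη : m < η := by
          rw [hm] at hlt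
          exact (add_lt_add_iff_left γ).1 hlt
        have hlt' : κ + m < κ + η := (add_lt_add_iff_left κ).2 hmη
        have h7 : (κ + m).toZFSet ∈ X := hX.add m (hmη.trans_le hη) (hlt'.trans_le hβ)
        have h8 := h2 _ _ h7 hlt'
        rw [ih m hmη (hmη.le.trans hη) (hlt'.le.trans hβ), hm] at h8
        exact lt_irrefl _ h8

theorem pf_RK (hOC : T_OC.{u}) : T_RK.{u} := by
  intro κ β γ X hX x
  obtain ⟨-, h2, h3⟩ := hOC X
  induction x using ZFSet.inductionOn with
  | _ x ih =>
    intro hx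
    apply le_antisymm
    · refine ZFSet.rank_le_iff.2 fun y hy => ?_
      obtain ⟨z, hz, hzX, rfl⟩ := mem_cps.1 hy
      rw [ih z hz hzX]
      exact h2 _ _ (hX.rk z hzX) (ZFSet.rank_lt_of_mem hz)
    · by_contra hlt
      push Not at hlt
      obtain ⟨a, ha, haX, h4⟩ := h3 _ _ hlt
      obtain ⟨y, hy, hyX, h5⟩ := hX.sup x hx a ha haX
      have h6 := oc_mono hOC X h5
      rw [h4, ← ih y hy hyX] at h6
      exact absurd (ZFSet.rank_lt_of_mem (mem_cps.2 ⟨y, hy, hyX, rfl⟩ : cps X y ∈ cps X x))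
        (not_lt.2 h6)

theorem pf_OB (hOC : T_OC.{u}) : T_OB.{u} := by
  classical
  intro K β E γ hγ b
  obtain ⟨-, h2, h3⟩ := hOC (XS β E γ)
  have h4 : ∀ c : Iio (oc (XS β E γ) b), ∃ (ζ : Iio γ) (a : Ordinal.{u}),
      E ζ.1 = a.toZFSet ∧ oc (XS β E γ) a = c.1 := by
    rintro ⟨c, hc⟩
    obtain ⟨a, -, haX, h5⟩ := h3 b c hc
    obtain ⟨ζ, hζ, h6⟩ := (mem_XS.1 haX).2
    exact ⟨⟨ζ, hζ⟩, a, h6, h5⟩
  choose g a hg1 hg2 using h4
  have hginj : Function.Injective g := by
    intro c c' h
    have h6 := hg1 c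
    rw [h, hg1 c'] at h6
    have h7 := hg2 c
    rw [← toZFSet_injective h6, hg2 c'] at h7
    exact Subtype.ext h7.symm
  have h5 := Cardinal.mk_le_of_injective hginj
  rw [Cardinal.mk_Iio_ordinal, Cardinal.mk_Iio_ordinal, Cardinal.lift_le] at h5
  rw [Cardinal.lt_ord] at hγ ⊢
  exact h5.trans_lt hγ

end Pool.Agent.H52.XH
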