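import Pool.Agent.H52.XH.Targets
import Pool.Agent.H7.HD.All6

/-!
# Elementary embeddings which are elements of HOD: modules CR and SW (MP_e37c09_lc)
-/

open Ordinal Cardinal Order Set
open scoped ZFSet

universe u

namespace Pool.Agent.H52.XH

open _root_.HD Pool.Agent.H54.WM

theorem pf_CR : T_CR.{u} := by
  classical
  intro K hK hK0 R hR
  choose! g hg1 hg2 using fun a (ha : a < K.ord) => fun b (hb : b < K.ord) => hR a ha b hb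
  have h0 : (0 : Ordinal.{u}) < K.ord := (Cardinal.isSuccLimit_ord hK0.le).bot_lt
  have h1 := All.cb K hK hK0 (fun a b => if a < K.ord ∧ b < K.ord then g a b else 0)
    fun x hx y hy => by
      show (if x < K.ord ∧ y < K.ord then g x y else 0) < K.ord
      rw [if_pos ⟨hx, hy⟩]
      exact hg1 x hx y hy
  refine ⟨_, h1, ?_⟩
  rintro γ ⟨h2, h3⟩ hγ
  refine ⟨h2, fun a ha b hb => ?_⟩
  have h4 := h3 a ha b hb
  have haK := ha.trans hγ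
  have hbK := hb.trans hγ
  simp only [haK, hbK, and_self, if_true] at h4
  exact ⟨_, h4, hg2 a haK b hbK⟩

theorem pf_SW (hCR : T_CR.{u}) : T_SW.{u} := by
  intro K hK hK0 lam β f hf hon Q hQ E hE
  have hKc : ℵ₀ < K.ord.cof := by rw [hK.cof_ord]; exact hK0
  obtain ⟨C1, hC1, h1⟩ := hCR K hK hK0 (fun a _ c => ZFSet.pair (f c).toZFSet (E a) ∈ Q)
    (fun a ha _ _ => by
      obtain ⟨i, hi, h⟩ := hQ.onto _ (hE.map a ha)
      obtain ⟨c, hc, rfl⟩ := hon i hi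
      exact ⟨c, hc, h⟩)
  obtain ⟨C2, hC2, h2⟩ := hCR K hK hK0 (fun a _ c => ZFSet.pair (f a).toZFSet (E c) ∈ Q)
    (fun a ha _ _ => by
      obtain ⟨x, hx, h⟩ := hQ.total (hf a ha)
      obtain ⟨c, hc, rfl⟩ := hE.onto x hx
      exact ⟨c, hc, h⟩)
  refine ⟨C1 ∩ C2, All.ci _ _ _ hKc hC1 hC2, ?_⟩
  rintro γ ⟨g1, g2⟩ hγ
  ext x
  rw [mem_XS' hE hγ.le, mem_QI]
  constructor
  · rintro ⟨ζ, hζ, rfl⟩
    refine ⟨hE.map ζ (hζ.trans hγ), ?_⟩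
    obtain ⟨c, hc, h⟩ := (h1 γ g1 hγ).2 ζ hζ ζ hζ
    exact ⟨_, mem_os.2 ⟨f c, hf c (hc.trans hγ), ⟨c, hc, rfl⟩, rfl⟩, h⟩
  · rintro ⟨-, a, ha, h⟩
    obtain ⟨i, hi, ⟨ζ, hζ, rfl⟩, rfl⟩ := mem_os.1 ha
    obtain ⟨c, hc, h3⟩ := (h2 γ g2 hγ).2 ζ hζ ζ hζ
    exact ⟨c, hc, hQ.unique h3 h⟩

end Pool.Agent.H52.XH
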