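import Pool.Agent.H52.XH.Targets

/-!
# Elementary embeddings which are elements of HOD: module EM (MP_e37c09_lc)
-/

open Ordinal Cardinal Order Set
open scoped ZFSet

universe u

namespace Pool.Agent.H52.XH

open _root_.HD Pool.Agent.H54.WM

theorem pf_EM (hCP : T_CP.{u}) (hOC : T_OC.{u}) (hOV : T_OV.{u}) (hLW : T_LW.{u})
    (hCD : T_CD.{u}) (hIM : T_IM.{u}) : T_EM.{u} := by
  intro κ β γ X hX hγ hκ hXH hF
  obtain ⟨hinj, hmem⟩ := hCP X hX.ext
  obtain ⟨hC1, hC2⟩ := hCD X hXH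
  have hIM' := hIM κ β γ X hX hXH hF
  have hXel : ∀ x ∈ X, HOD x := fun x hx => (mem_HV.1 (hX.sub hx)).2
  refine ⟨⟨?_, ⟨?_, ?_⟩, ?_, ?_, ?_⟩, fun y => ?_⟩
  · -- the embedding is in HOD
    refine hod_iff.2 ⟨?_, ?_⟩
    · refine OD.of_mem (P := fun v => ∃ x ∈ X, ∃ y, y = cps X x ∧ v 0 = ZFSet.pair y x) ?_
        fun v => ?_
      · refine DZ.od (R := fun A v => ∃ x ∈ A, ∃ y, y = cps X x ∧ v 0 = ZFSet.pair y x) hXH.od ?_
        refine DZ.exMem (R := fun x v => ∃ y, y = cps X x ∧ v 1 = ZFSet.pair y x) 0 ?_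
        refine DZ.ex (R := fun y v => y = cps X (v 0) ∧ v 2 = ZFSet.pair y (v 0)) ?_
        refine DZ.and ?_ (loc_pair 3 0 1).dz
        exact hC2.ren fun n => if n = 0 then 1 else 0
      · rw [mem_cj]
        constructor
        · rintro ⟨x, hx, y, rfl, h⟩
          exact ⟨x, hx, h⟩
        · rintro ⟨x, hx, h⟩
          exact ⟨x, hx, _, rfl, h⟩
    · intro p hp
      obtain ⟨x, hx, rfl⟩ := mem_cj.1 hp
      exact (hC1 x (hXel x hx)).pair (hXel x hx)
  · intro p hp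
    obtain ⟨x, hx, rfl⟩ := mem_cj.1 hp
    exact ZFSet.pair_mem_prod.2 ⟨(hIM' _).2 ⟨x, hx, rfl⟩, hX.sub hx⟩
  · intro y hy
    obtain ⟨x, hx, rfl⟩ := (hIM' y).1 hy
    refine ⟨x, pair_mem_cj.2 ⟨hx, rfl⟩, fun x' hx' => ?_⟩
    obtain ⟨h1, h2⟩ := pair_mem_cj.1 hx'
    exact (hinj x hx x' h1 h2).symm
  · -- elementarity
    have hsat : ∀ (φ : Fml) (w : ℕ → ZFSet.{u}), (∀ n, w n ∈ X) →
        (Sat (· ∈ HV (oc X β)) φ (cps X ∘ w) ↔ Sat (· ∈ X) φ w) := by
      intro φ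
      induction φ with
      | mem i l => intro w hw; exact hmem _ (hw i) _ (hw l)
      | eq i l => intro w hw; exact ⟨fun h => hinj _ (hw i) _ (hw l) h, fun h => congrArg (cps X) (h : w i = w l)⟩
      | neg φ ih => intro w hw; exact not_congr (ih w hw)
      | and φ ψ ih1 ih2 => intro w hw; exact and_congr (ih1 w hw) (ih2 w hw)
      | ex φ ih =>
        intro w hw
        have hcc : ∀ x, cons (cps X x) (cps X ∘ w) = cps X ∘ cons x w := by
          intro x
          funext n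
          rcases n with _ | n <;> rfl
        have hcv : ∀ x ∈ X, ∀ n, cons x w n ∈ X := by
          intro x hx n
          rcases n with _ | n
          · exact hx
          · exact hw n
        constructor
        · rintro ⟨y, hy, h⟩
          obtain ⟨x, hx, rfl⟩ := (hIM' y).1 hy
          rw [hcc] at h
          exact ⟨x, hx, (ih _ (hcv x hx)).1 h⟩
        · rintro ⟨x, hx, h⟩
          refine ⟨cps X x, (hIM' _).2 ⟨x, hx, rfl⟩, ?_⟩
          rw [hcc]
          exact (ih _ (hcv x hx)).2 h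
    intro φ v w hvw
    have hw : ∀ n, w n ∈ X := fun n => (pair_mem_cj.1 (hvw n)).1
    have hv : v = cps X ∘ w := by
      funext n
      exact (pair_mem_cj.1 (hvw n)).2
    rw [hv]
    exact (hsat φ w hw).trans (hX.el φ w hw)
  · intro x hx
    obtain ⟨h1, h2⟩ := hLW κ β γ X hX hγ hF x hx
    exact pair_mem_cj.2 ⟨h1, h2.symm⟩
  · refine pair_mem_cj.2 ⟨hX.kap, ?_⟩
    rw [(hOC X).1 κ, (hOV κ β γ X hX hγ hκ).2.1]
  · constructor
    · rintro ⟨x, hx⟩
      exact (pair_mem_cj.1 hx).1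
    · intro hy
      exact ⟨_, pair_mem_cj.2 ⟨hy, rfl⟩⟩

end Pool.Agent.H52.XH
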