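import Pool.Agent.H52.XH.CO

/-!
# Elementary embeddings which are elements of HOD: module IM (MP_e37c09_lc)
-/

open Ordinal Cardinal Order Set
open scoped ZFSet

universe u

namespace Pool.Agent.H52.XH

open _root_.HD Pool.Agent.H54.WM

theorem pf_IM (_hCP : T_CP.{u}) (hOC : T_OC.{u}) (hRK : T_RK.{u}) (hCD : T_CD.{u}) :
    T_IM.{u} := by
  intro κ β γ X hX hXH hF
  obtain ⟨hC1, hC2⟩ := hCD X hXH
  obtain ⟨-, h2, h3⟩ := hOC X
  have hrk := hRK κ β γ X hX
  have hXel : ∀ x ∈ X, HOD x := fun x hx => (mem_HV.1 (hX.sub hx)).2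
  intro y
  constructor
  · induction y using ZFSet.inductionOn with
    | _ y ih =>
      intro hy
      have hel : ∀ z ∈ y, ∃ x ∈ X, cps X x = z := fun z hz => ih z hz (HV_tra hy hz)
      obtain ⟨s, hs⟩ : ∃ s, s = ZFSet.sep (fun x' => cps X x' ∈ y) X := ⟨_, rfl⟩
      have hmem : ∀ x', x' ∈ s ↔ x' ∈ X ∧ cps X x' ∈ y := fun x' => by rw [hs, ZFSet.mem_sep]
      have hsH : HOD s := by
        refine hod_iff.2 ⟨?_, fun x' hx' => hXel x' ((hmem x').1 hx').1⟩
        refine OD.of_mem (P := fun v => v 0 ∈ X ∧ ∃ z, z = cps X (v 0) ∧ z ∈ y) ?_ fun v => ?_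
        · refine DZ.od (R := fun A v => v 0 ∈ A ∧ ∃ z, z = cps X (v 0) ∧ z ∈ y) hXH.od ?_
          refine DZ.od (R := fun B v => v 1 ∈ v 0 ∧ ∃ z, z = cps X (v 1) ∧ z ∈ B)
            (mem_HV.1 hy).2.od ?_
          refine (DZ.mem 2 1).and (DZ.ex (R := fun z v => z = cps X (v 2) ∧ z ∈ v 0) ?_)
          refine DZ.and ?_ (DZ.mem 0 1)
          exact hC2.ren fun n => if n = 0 then 3 else 0
        · rw [hmem]
          refine and_congr_right fun _ => ?_
          constructor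
          · rintro ⟨z, rfl, h⟩
            exact h
          · intro h
            exact ⟨_, rfl, h⟩
      obtain ⟨r, hr, hrX, hre⟩ := h3 β _ (rank_lt_of_HV hy)
      have hsV : s ⊆ V_ r := by
        intro x' hx'
        obtain ⟨h4, h5⟩ := (hmem x').1 hx'
        have h6 := ZFSet.rank_lt_of_mem h5
        rw [hrk x' h4, ← hre] at h6
        rw [ZFSet.mem_vonNeumann]
        by_contra hlt
        push Not at hlt
        exact absurd h6 (not_lt.2 (oc_mono hOC X hlt))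
      obtain ⟨x, hx, h1⟩ : ∃ x ∈ X, ∀ w ∈ X, w ∈ x ↔ w ∈ s := by
        by_contra hcon
        push Not at hcon
        refine hF s ⟨hsH, fun x' hx' => ((hmem x').1 hx').1, ⟨r, hrX, hsV⟩, fun z hz => ?_⟩
        obtain ⟨w, hw, h⟩ := hcon z hz
        exact ⟨w, hw, fun h' => by
          rcases h with h | h
          · exact h.2 (h'.1 h.1)
          · exact h.1 (h'.2 h.2)⟩
      refine ⟨x, hx, ?_⟩
      ext z
      rw [mem_cps]
      constructor
      · rintro ⟨w, hw, hwX, rfl⟩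
        exact ((hmem w).1 ((h1 w hwX).1 hw)).2
      · intro hz
        obtain ⟨w, hwX, rfl⟩ := hel z hz
        exact ⟨w, (h1 w hwX).2 ((hmem w).2 ⟨hwX, hz⟩), hwX, rfl⟩
  · rintro ⟨x, hx, rfl⟩
    refine mem_HV.2 ⟨?_, hC1 x (hXel x hx)⟩
    rw [ZFSet.mem_vonNeumann, hrk x hx]
    exact h2 _ _ (hX.rk x hx) (rank_lt_of_HV (hX.sub hx))

end Pool.Agent.H52.XH
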