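import Pool.Agent.H52.XH.Targets

/-!
# Elementary embeddings which are elements of HOD: module LW (MP_e37c09_lc)
-/

open Ordinal Cardinal Order Set
open scoped ZFSet

universe u

namespace Pool.Agent.H52.XH

open _root_.HD Pool.Agent.H54.WM

theorem pf_LW : T_LW.{u} := by
  intro κ β γ X hX hγ hF
  have key : ∀ a : Ordinal.{u}, ∀ x : ZFSet.{u}, x.rank = a → x ∈ HV γ → x ∈ X := by
    intro a
    induction a using WellFoundedLT.induction with
    | ind a ih =>
      intro x hxa hx
      have hag : a < γ := by
        rw [← hxa]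
        exact rank_lt_of_HV hx
      have haX : a.toZFSet ∈ X := (hX.seg a (hag.trans_le hγ)).2 hag
      have hsub : x ⊆ X := fun y hy => ih y.rank (by
        rw [← hxa]
        exact ZFSet.rank_lt_of_mem hy) y rfl (HV_tra hx hy)
      have hVa : x ⊆ V_ a := fun y hy => by
        rw [ZFSet.mem_vonNeumann, ← hxa]
        exact ZFSet.rank_lt_of_mem hy
      obtain ⟨x', hx', h1⟩ : ∃ x' ∈ X, ∀ w ∈ X, w ∈ x' ↔ w ∈ x := by
        by_contra hcon
        push Not at hcon
        refine hF x ⟨(mem_HV.1 hx).2, hsub, ⟨a, haX, hVa⟩, fun y hy => ?_⟩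
        obtain ⟨w, hw, h⟩ := hcon y hy
        exact ⟨w, hw, fun h' => by
          rcases h with h | h
          · exact h.2 (h'.1 h.1)
          · exact h.1 (h'.2 h.2)⟩
      have hr : x'.rank ≤ a := by
        by_contra hlt
        push Not at hlt
        obtain ⟨w, hw, hwX, h2⟩ := hX.sup x' hx' a hlt haX
        have h3 := ZFSet.rank_lt_of_mem ((h1 w hwX).1 hw)
        rw [hxa] at h3
        exact absurd h3 (not_lt.2 h2)
      have he : x' = x := by
        ext w
        constructor
        · intro hw
          have hwr : w.rank < a := (ZFSet.rank_lt_of_mem hw).trans_le hr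
          have hwH : w ∈ HV γ := mem_HV.2 ⟨by
            rw [ZFSet.mem_vonNeumann]
            exact hwr.trans hag, (mem_HV.1 (HV_tra (hX.sub hx') hw)).2⟩
          exact (h1 w (ih _ hwr w rfl hwH)).1 hw
        · intro hw
          exact (h1 w (hsub hw)).2 hw
      rw [← he]
      exact hx'
  intro x
  induction x using ZFSet.inductionOn with
  | _ x ih =>
    intro hx
    refine ⟨key _ x rfl hx, ?_⟩
    ext z
    rw [mem_cps]
    constructor
    · rintro ⟨y, hy, -, rfl⟩
      rw [(ih y hy (HV_tra hx hy)).2]
      exact hy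
    · intro hz
      obtain ⟨h1, h2⟩ := ih z hz (HV_tra hx hz)
      exact ⟨z, hz, h1, h2⟩

end Pool.Agent.H52.XH
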