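import Pool.Agent.H52.XH.Defs
import Pool.Agent.H54.CL.Cod

/-!
# The three cases for the successor of `K` in HOD (MP_e37c09_lc)
-/

open Ordinal Cardinal Order Set
open scoped ZFSet

universe u

namespace Pool.Agent.H52.XH

open _root_.HD Pool.Agent.H54.WM

/-- If HOD satisfies `2 ^ K = K⁺` and `Ext δ₁ K K⁺` holds then club many `γ < K` with `δ₁ ≤ cof γ`
are 1-extendible in HOD with target `K`. -/
theorem tri {δ₁ : Ordinal.{u}} {K : Cardinal.{u}} (hK : K.IsRegular)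
    (h : (hs K.ord).cof = ℵ₀ ∨ ((hs K.ord).cof = K ∧ Ext δ₁ K (hs K.ord)))
    (hQ : ∀ lam, PowHOD K.ord lam → ∃ Q, OnV lam (K.ord + 1) Q) :
    (hs K.ord).cof = ℵ₀ ∨ ¬ PowHOD K.ord (hs K.ord) ∨ ∃ C, Clb K.ord C ∧
      ∀ γ ∈ C, γ < K.ord → δ₁ ≤ γ.cof.ord → ∃ j, HExt γ K.ord (γ + 1) (K.ord + 1) j := by
  rcases h with h | ⟨-, h⟩
  · exact Or.inl h
  refine Or.inr ?_
  by_cases hP : PowHOD K.ord (hs K.ord)
  swap
  · exact Or.inl hP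
  refine Or.inr ?_
  obtain ⟨⟨E, hE⟩, h2⟩ := h (K.ord + 1) (lt_add_one _) (hQ _ hP)
  obtain ⟨C, b, j, hC, h3⟩ := h2 E hE
  refine ⟨C, hC, fun γ h4 h5 h6 => ⟨j γ, ?_⟩⟩
  obtain ⟨-, h7, h8, -⟩ := h3 γ h4 h5 h6
  have h1 : (1 : Ordinal.{u}) < K.ord := by
    have : ω ≤ K.ord := by
      rw [← ord_aleph0]
      exact Cardinal.ord_le_ord.2 hK.aleph0_le
    exact one_lt_omega0.trans_le this
  rw [(h7 1 h1 rfl).2] at h8
  exact h8

end Pool.Agent.H52.XH
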