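import Pool.Agent.H52.XH.FIN
import Pool.Agent.H52.XH.TRI
import Pool.Agent.H52.XH.CR
import Pool.Agent.H52.XH.CLO
import Pool.Agent.H52.XH.CO
import Pool.Agent.H52.XH.LW
import Pool.Agent.H52.XH.EM
import Pool.Agent.H52.XH.IM
import Pool.Agent.H1.XH.UNI
import Pool.Agent.H11.XH.TB
import Pool.Agent.H13.XH.COH
import Pool.Agent.H19.XH.KM
import Pool.Agent.H19.XH.FD
import Pool.Agent.H19.XH.JL
import Pool.Agent.H34.XH.CD
import Pool.Agent.H34.XH.REG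
import Pool.Agent.H47.XH.CM
import Pool.Agent.H47.XH.JG
import Pool.Agent.H86.XH.UB

/-!
# Elementary embeddings which are elements of HOD: assembly (MP_e37c09_lc)
-/

open Ordinal Cardinal Order Set
open scoped ZFSet

universe u

namespace Pool.Agent.H52.XH.All

open _root_.HD Pool.Agent.H54.WM

theorem tCR : T_CR.{u} := pf_CR
theorem tCLO : T_CLO.{u} := pf_CLO tCR
theorem tSW : T_SW.{u} := pf_SW tCR
theorem tUB : T_UB.{u} := Pool.Agent.H86.XH.pf_UB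
theorem tREG : T_REG.{u} := Pool.Agent.H34.XH.pf_REG
theorem tCOH : T_COH.{u} := Pool.Agent.H13.XH.pf_COH tUB tREG
theorem tUNI : T_UNI.{u} := Pool.Agent.H1.XH.pf_UNI
theorem tTB : T_TB.{u} := Pool.Agent.H11.XH.pf_TB
theorem tKM : T_KM.{u} := Pool.Agent.H19.XH.pf_KM tUB tREG tCOH tUNI tTB
theorem tFD : T_FD.{u} := Pool.Agent.H19.XH.pf_FD
theorem tCP : T_CP.{u} := pf_CP
theorem tOC : T_OC.{u} := pf_OC
theorem tOV : T_OV.{u} := pf_OV tOC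
theorem tOB : T_OB.{u} := pf_OB tOC
theorem tRK : T_RK.{u} := pf_RK tOC
theorem tLW : T_LW.{u} := pf_LW
theorem tCD : T_CD.{u} := Pool.Agent.H34.XH.pf_CD
theorem tIM : T_IM.{u} := pf_IM tCP tOC tRK tCD
theorem tEM : T_EM.{u} := pf_EM tCP tOC tOV tLW tCD tIM
theorem tCM : T_CM.{u} := Pool.Agent.H47.XH.pf_CM
theorem tFC : T_FC.{u} := pf_FC tCR tCLO tSW tTB tKM tFD
theorem tEX : T_EX.{u} := pf_EX tCLO tFC tOV tOB tEM tCM
theorem tHS : T_HS.{u} := pf_HS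
theorem tJL : T_JL.{u} := Pool.Agent.H19.XH.pf_JL
theorem tJG : T_JG.{u} := Pool.Agent.H47.XH.pf_JG
theorem tFIN : T_FIN.{u} := pf_FIN tEX tHS pf_GC tJL tJG

/-- The theorem, with the three cases for the successor of `K` in HOD. -/
theorem tFIN2 (δ : Ordinal.{u}) (hδ : Extendible δ) : CaseA δ ∨ ∀ l < δ, ∃ δ₁ δ₀,
    l < δ₁ ∧ δ₁ < δ₀ ∧ δ₀ < δ ∧
      (∀ K : Cardinal.{u}, K.IsRegular → δ₀ < K.ord →
        ((hs K.ord).cof = ℵ₀ ∨ ¬ PowHOD K.ord (hs K.ord) ∨ ∃ C, Clb K.ord C ∧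
          ∀ γ ∈ C, γ < K.ord → δ₁ ≤ γ.cof.ord → ∃ j, HExt γ K.ord (γ + 1) (K.ord + 1) j) ∧
        ((hs K.ord).cof = ℵ₀ ∨ ((hs K.ord).cof = K ∧ Ext δ₁ K (hs K.ord))) ∧
        (∀ lam, PowHOD K.ord lam → ∃ Q, OnV lam (K.ord + 1) Q) ∧
        ∀ lam, RegHOD lam → K.ord < lam → δ₁ < lam.cof.ord → ¬ Sprd δ₁ K.ord lam →
          Ext δ₁ K lam) ∧
      (∀ lam, RegHOD lam → δ < lam → δ₁ < lam.cof.ord → ¬ Sprd δ₁ δ lam → Amn δ lam) ∧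
      ((hs δ).cof = ℵ₀ ∨ Amn δ (hs δ)) := by
  refine (tFIN δ hδ).imp id fun h l hl => ?_
  obtain ⟨δ₁, δ₀, h1, h2, h3, h4, h5⟩ := h l hl
  refine ⟨δ₁, δ₀, h1, h2, h3, fun K hK hδK => ?_, h5⟩
  obtain ⟨g1, g2, g3⟩ := h4 K hK hδK
  exact ⟨tri hK g1 g2, g1, g2, g3⟩

end Pool.Agent.H52.XH.All
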