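import Pool.Agent.H54.WM.Defs
import Pool.Agent.H4.HD.FU

/-!
# Elementary embeddings which are elements of HOD: definitions (MP_e37c09_lc)

`HV β` is the set `(V_ β)^HOD`.
-/

open Ordinal Cardinal Order Set
open scoped ZFSet

universe u

namespace Pool.Agent.H52.XH

open _root_.HD Pool.Agent.H54.WM

/-! ## Statement-level definitions -/

/-- `Q` is in HOD and maps `lam` onto `(V_ β)^HOD`. -/
structure OnV (lam β : Ordinal.{u}) (Q : ZFSet.{u}) : Prop where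
  hod : HOD Q
  func : ZFSet.IsFunc lam.toZFSet (HV β) Q
  onto : ∀ x ∈ HV β, ∃ a < lam, ZFSet.pair a.toZFSet x ∈ Q

/-- `E` maps `K` onto `(V_ β)^HOD` (in `V`). -/
structure EnW (K : Cardinal.{u}) (β : Ordinal.{u}) (E : Ordinal.{u} → ZFSet.{u}) : Prop where
  map : ∀ ζ < K.ord, E ζ ∈ HV β
  onto : ∀ x ∈ HV β, ∃ ζ < K.ord, E ζ = x

/-- `j` is in HOD, and it is an elementary embedding of `(V_ β)^HOD` in `(V_ β')^HOD` which is the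
identity on `(V_ γ)^HOD` and maps `γ` to `γ'`. -/
structure HExt (γ γ' β β' : Ordinal.{u}) (j : ZFSet.{u}) : Prop where
  hod : HOD j
  func : ZFSet.IsFunc (HV β) (HV β') j
  elem : ∀ (φ : Fml) (v w : ℕ → ZFSet.{u}), (∀ n, ZFSet.pair (v n) (w n) ∈ j) →
    (Sat (· ∈ HV β) φ v ↔ Sat (· ∈ HV β') φ w)
  fix : ∀ x ∈ HV γ, ZFSet.pair x x ∈ j
  crit : ZFSet.pair γ.toZFSet γ'.toZFSet ∈ j

/-- For each `β' > K` such that HOD maps `lam` onto `(V_ β')^HOD` there is a map of `K` onto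
`(V_ β')^HOD`, and for each such map `E` there is a club subset `C` of `K` such that for all `γ ∈ C`
with `δ₁ ≤ cof γ` there is an elementary embedding `j γ` in HOD of `(V_ (b γ))^HOD` in
`(V_ β')^HOD`, `b γ < K`, with critical point `γ`, which maps `γ` to `K`, and whose range is
`E '' γ`; moreover `b γ = γ + η` if `β' = K + η` with `η < K`; and for `γ < γ'` in `C`, both of
cofinality at least `δ₁`, there is in HOD an elementary embedding `k` of `(V_ (b γ))^HOD` in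
`(V_ (b γ'))^HOD` with critical point `γ` which maps `γ` to `γ'`, and `j γ = j γ' ∘ k`. -/
def Ext (δ₁ : Ordinal.{u}) (K : Cardinal.{u}) (lam : Ordinal.{u}) : Prop :=
  ∀ β', K.ord < β' → (∃ Q, OnV lam β' Q) → (∃ E, EnW K β' E) ∧ ∀ E, EnW K β' E →
    ∃ (C : Set Ordinal.{u}) (b : Ordinal.{u} → Ordinal.{u}) (j : Ordinal.{u} → ZFSet.{u}),
      Clb K.ord C ∧ ∀ γ ∈ C, γ < K.ord → δ₁ ≤ γ.cof.ord →
        b γ < K.ord ∧ (∀ η < K.ord, β' = K.ord + η → η < γ ∧ b γ = γ + η) ∧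
        HExt γ K.ord (b γ) β' (j γ) ∧ (∀ y, (∃ x, ZFSet.pair x y ∈ j γ) ↔ ∃ ζ < γ, E ζ = y) ∧
        ∀ γ' ∈ C, γ < γ' → γ' < K.ord → δ₁ ≤ γ'.cof.ord → ∃ k, HExt γ γ' (b γ) (b γ') k ∧
          ∀ x y z, ZFSet.pair x y ∈ k → ZFSet.pair y z ∈ j γ' → ZFSet.pair x z ∈ j γ

/-- the restriction of `j` to `W`, as a set -/
noncomputable def gj (j : ZFSet.{u} → ZFSet.{u}) (W : ZFSet.{u}) : ZFSet.{u} :=
  ZFSet.range fun x : W => ZFSet.pair x.1 (j x.1)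

/-- If HOD maps `lam` onto `(V_ b)^HOD` then, for all large limit ordinals `η`, the restriction to
`(V_ b)^HOD` of each elementary embedding `j : V_ η → V_ θ` with critical point `δ` and `j δ > η` is
in HOD. -/
def Amn (δ lam : Ordinal.{u}) : Prop :=
  ∀ b, (∃ Q, OnV lam b Q) → ∃ β, ∀ η > β, ∀ (θ : Ordinal.{u}) (j : ZFSet.{u} → ZFSet.{u}),
    Emb δ η θ j → HOD (gj j (HV b))

/-! ## Auxiliary definitions -/

/-- the image of `γ` under `E` -/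
noncomputable def XS (β : Ordinal.{u}) (E : Ordinal.{u} → ZFSet.{u}) (γ : Ordinal.{u}) :
    ZFSet.{u} := ZFSet.sep (fun x => ∃ ζ < γ, E ζ = x) (HV β)

/-- the image of `s` under `Q` -/
noncomputable def QI (β : Ordinal.{u}) (Q s : ZFSet.{u}) : ZFSet.{u} :=
  ZFSet.sep (fun x => ∃ a ∈ s, ZFSet.pair a x ∈ Q) (HV β)

/-- `X` is closed under the functions which are needed. -/
structure Gx (κ β γ : Ordinal.{u}) (X : ZFSet.{u}) : Prop where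
  sub : X ⊆ HV β
  el : ∀ (φ : Fml) (v : ℕ → ZFSet.{u}), (∀ n, v n ∈ X) → (Sat (· ∈ X) φ v ↔ Sat (· ∈ HV β) φ v)
  seg : ∀ a < κ, (a.toZFSet ∈ X ↔ a < γ)
  kap : κ.toZFSet ∈ X
  rk : ∀ x ∈ X, x.rank.toZFSet ∈ X
  sup : ∀ x ∈ X, ∀ a < x.rank, a.toZFSet ∈ X → ∃ y ∈ x, y ∈ X ∧ a ≤ y.rank
  ext : ∀ x ∈ X, ∀ y ∈ X, (∀ z ∈ X, z ∈ x ↔ z ∈ y) → x = y
  add : ∀ η < γ, κ + η < β → (κ + η).toZFSet ∈ X

/-- `z ⊆ X` is in HOD, it is bounded in rank by an ordinal in `X`, and it is not `x ∩ X` for an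
`x ∈ X`. -/
structure Cex (X z : ZFSet.{u}) : Prop where
  hod : HOD z
  sub : z ⊆ X
  bd : ∃ r : Ordinal.{u}, r.toZFSet ∈ X ∧ z ⊆ V_ r
  ne : ∀ x ∈ X, ∃ w ∈ X, ¬ (w ∈ x ↔ w ∈ z)

/-- Each subset of `X` in HOD which is bounded in rank by an ordinal in `X` is `x ∩ X` for an
`x ∈ X`. -/
def Ful (X : ZFSet.{u}) : Prop := ∀ z, ¬ Cex X z

/-- the collapse: `cps X x = {cps X y | y ∈ x ∩ X}` -/
noncomputable def cps (X : ZFSet.{u}) (x : ZFSet.{u}) : ZFSet.{u} :=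
  ZFSet.range fun y : (x ∩ X : ZFSet.{u}) => cps X y.1
termination_by x
decreasing_by exact (ZFSet.mem_inter.1 y.2).1

/-- the order type of `X ∩ a` -/
noncomputable def oc (X : ZFSet.{u}) (a : Ordinal.{u}) : Ordinal.{u} := (cps X a.toZFSet).rank

/-- the inverse of the collapse, as a set -/
noncomputable def cj (X : ZFSet.{u}) : ZFSet.{u} :=
  ZFSet.range fun x : X => ZFSet.pair (cps X x.1) x.1

/-! ## Basic facts -/

theorem mem_XS {β : Ordinal.{u}} {E : Ordinal.{u} → ZFSet.{u}} {γ : Ordinal.{u}} {x : ZFSet.{u}} :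
    x ∈ XS β E γ ↔ x ∈ HV β ∧ ∃ ζ < γ, E ζ = x := ZFSet.mem_sep

theorem mem_XS' {K : Cardinal.{u}} {β : Ordinal.{u}} {E : Ordinal.{u} → ZFSet.{u}}
    (hE : EnW K β E) {γ : Ordinal.{u}} (hγ : γ ≤ K.ord) {x : ZFSet.{u}} :
    x ∈ XS β E γ ↔ ∃ ζ < γ, E ζ = x := by
  rw [mem_XS]
  refine ⟨fun h => h.2, fun h => ⟨?_, h⟩⟩
  obtain ⟨ζ, h1, rfl⟩ := h
  exact hE.map ζ (h1.trans_le hγ)

theorem mem_QI {β : Ordinal.{u}} {Q s x : ZFSet.{u}} :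
    x ∈ QI β Q s ↔ x ∈ HV β ∧ ∃ a ∈ s, ZFSet.pair a x ∈ Q := ZFSet.mem_sep

theorem mem_cps {X x z : ZFSet.{u}} : z ∈ cps X x ↔ ∃ y ∈ x, y ∈ X ∧ cps X y = z := by
  rw [cps, ZFSet.mem_range]
  constructor
  · rintro ⟨⟨y, hy⟩, rfl⟩
    exact ⟨y, (ZFSet.mem_inter.1 hy).1, (ZFSet.mem_inter.1 hy).2, rfl⟩
  · rintro ⟨y, h1, h2, rfl⟩
    exact ⟨⟨y, ZFSet.mem_inter.2 ⟨h1, h2⟩⟩, rfl⟩

theorem mem_cj {X p : ZFSet.{u}} : p ∈ cj X ↔ ∃ x ∈ X, p = ZFSet.pair (cps X x) x := by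
  rw [cj, ZFSet.mem_range]
  constructor
  · rintro ⟨⟨x, hx⟩, rfl⟩
    exact ⟨x, hx, rfl⟩
  · rintro ⟨x, hx, rfl⟩
    exact ⟨⟨x, hx⟩, rfl⟩

theorem pair_mem_cj {X x y : ZFSet.{u}} : ZFSet.pair x y ∈ cj X ↔ y ∈ X ∧ x = cps X y := by
  rw [mem_cj]
  constructor
  · rintro ⟨z, hz, h⟩
    obtain ⟨rfl, rfl⟩ := ZFSet.pair_inj.1 h
    exact ⟨hz, rfl⟩
  · rintro ⟨h, rfl⟩
    exact ⟨y, h, rfl⟩

theorem mem_gj {j : ZFSet.{u} → ZFSet.{u}} {W p : ZFSet.{u}} :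
    p ∈ gj j W ↔ ∃ x ∈ W, p = ZFSet.pair x (j x) := by
  rw [gj, ZFSet.mem_range]
  constructor
  · rintro ⟨⟨x, hx⟩, rfl⟩
    exact ⟨x, hx, rfl⟩
  · rintro ⟨x, hx, rfl⟩
    exact ⟨⟨x, hx⟩, rfl⟩

theorem OnV.unique {lam β : Ordinal.{u}} {Q : ZFSet.{u}} (h : OnV lam β Q) {a x y : ZFSet.{u}}
    (hx : ZFSet.pair a x ∈ Q) (hy : ZFSet.pair a y ∈ Q) : x = y := by
  have h1 := ZFSet.pair_mem_prod.1 (h.func.1 hx)
  obtain ⟨w, -, hw⟩ := h.func.2 a h1.1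
  exact (hw x hx).trans (hw y hy).symm

theorem OnV.total {lam β : Ordinal.{u}} {Q : ZFSet.{u}} (h : OnV lam β Q) {a : Ordinal.{u}}
    (ha : a < lam) : ∃ x ∈ HV β, ZFSet.pair a.toZFSet x ∈ Q := by
  obtain ⟨w, hw, -⟩ := h.func.2 a.toZFSet (toZFSet_mem_toZFSet_iff.2 ha)
  exact ⟨w, (ZFSet.pair_mem_prod.1 (h.func.1 hw)).2, hw⟩

theorem ord_mem_HV {a β : Ordinal.{u}} : a.toZFSet ∈ HV β ↔ a < β := by
  rw [mem_HV, ZFSet.mem_vonNeumann, rank_toZFSet]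
  exact ⟨fun h => h.1, fun h => ⟨h, HOD.ordinal a⟩⟩

theorem rank_lt_of_HV {β : Ordinal.{u}} {x : ZFSet.{u}} (h : x ∈ HV β) : x.rank < β :=
  ZFSet.mem_vonNeumann.1 (mem_HV.1 h).1

end Pool.Agent.H52.XH
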