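import Pool.Agent.H52.XH.FC

/-!
# Elementary embeddings which are elements of HOD: the system of embeddings (MP_e37c09_lc)
-/

open Ordinal Cardinal Order Set
open scoped ZFSet

universe u

namespace Pool.Agent.H52.XH

open _root_.HD Pool.Agent.H54.WM

/-- EX. The system of embeddings. -/
def T_EX : Prop := ∀ (δ₁ δ₀ : Ordinal.{u}) (K : Cardinal.{u}) (lam : Ordinal.{u}),
  Hyp δ₁ δ₀ K lam → Ext δ₁ K lam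

theorem pf_EX (hCLO : T_CLO.{u}) (hFC : T_FC.{u}) (hOV : T_OV.{u}) (hOB : T_OB.{u})
    (hEM : T_EM.{u}) (hCM : T_CM.{u}) : T_EX.{u} := by
  rintro δ₁ δ₀ K lam hH β' hβ ⟨Q, hQ⟩
  constructor
  · obtain ⟨f, hf⟩ := hH.sj
    have h1 : ∀ ζ : Ordinal.{u}, ∃ x, ζ < K.ord → x ∈ HV β' ∧ ZFSet.pair (f ζ).toZFSet x ∈ Q := by
      intro ζ
      by_cases hζ : ζ < K.ord
      · obtain ⟨x, hx, h⟩ := hQ.total (hf.lt ζ hζ)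
        exact ⟨x, fun _ => ⟨hx, h⟩⟩
      · exact ⟨∅, fun h => absurd h hζ⟩
    choose E hE using h1
    refine ⟨E, fun ζ hζ => (hE ζ hζ).1, fun x hx => ?_⟩
    obtain ⟨a, ha, h⟩ := hQ.onto x hx
    obtain ⟨ζ, hζ, rfl⟩ := hf.onto a ha
    exact ⟨ζ, hζ, hQ.unique (hE ζ hζ).2 h⟩
  intro E hE
  have hKc : ℵ₀ < K.ord.cof := by rw [hH.kreg.cof_ord]; exact hH.kunc
  obtain ⟨C1, hC1, hC1'⟩ := hCLO K hH.kreg hH.kunc β' hβ E hE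
  obtain ⟨C2, hC2, hC2'⟩ := hFC δ₁ δ₀ K lam hH β' Q hβ hQ E hE
  refine ⟨C1 ∩ C2, fun γ => oc (XS β' E γ) β', fun γ => cj (XS β' E γ),
    All.ci _ _ _ hKc hC1 hC2, ?_⟩
  rintro γ ⟨h1, h2⟩ hγ hc
  obtain ⟨-, g2, g3⟩ := hC1' γ h1 hγ
  obtain ⟨g4, g5⟩ := hC2' γ h2 hγ hc
  obtain ⟨g6, g7⟩ := hEM K.ord β' γ _ g3 hγ.le hβ g4 g5
  refine ⟨hOB K β' E γ hγ β', fun η hη he => ⟨g2 η hη he, ?_⟩, g6, fun y => ?_, ?_⟩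
  · obtain ⟨-, -, h3⟩ := hOV K.ord β' γ _ g3 hγ.le hβ
    have h4 := h3 η (g2 η hη he).le he.ge
    rw [← he] at h4
    exact h4
  · rw [g7, mem_XS' hE hγ.le]
  · intro γ' hγ' hlt hγ'K hc'
    obtain ⟨-, -, k3⟩ := hC1' γ' hγ'.1 hγ'K
    obtain ⟨k4, k5⟩ := hC2' γ' hγ'.2 hγ'K hc'
    obtain ⟨k6, k7⟩ := hEM K.ord β' γ' _ k3 hγ'K.le hβ k4 k5
    refine hCM γ γ' K.ord _ _ β' _ _ g6 k6 hlt.le fun y hy => ?_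
    rw [k7, mem_XS' hE hγ'K.le]
    rw [g7, mem_XS' hE hγ.le] at hy
    obtain ⟨ζ, hζ, h⟩ := hy
    exact ⟨ζ, hζ.trans hlt, h⟩

end Pool.Agent.H52.XH
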