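import Pool.Agent.H52.XH.Targets
import Pool.Agent.H7.HDC.Fin

/-!
# Elementary embeddings which are elements of HOD: a club of full sets (MP_e37c09_lc)
-/

open Ordinal Cardinal Order Set
open scoped ZFSet

universe u

namespace Pool.Agent.H52.XH

open _root_.HD Pool.Agent.H54.WM

/-- the hypotheses on `K` and `lam` -/
structure Hyp (δ₁ δ₀ : Ordinal.{u}) (K : Cardinal.{u}) (lam : Ordinal.{u}) : Prop where
  kreg : K.IsRegular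
  kunc : ℵ₀ < K
  d1 : ∃ M : Cardinal.{u}, M.IsRegular ∧ δ₁ = M.ord
  d10 : δ₁ < δ₀
  d0 : δ₀ < K.ord
  hk : K.ord < lam
  hl : lam < (succ K).ord
  club : ClubH δ₁ K lam
  su : SuH δ₁ δ₀ K lam

/-- FC. A club of full sets. -/
def T_FC : Prop := ∀ (δ₁ δ₀ : Ordinal.{u}) (K : Cardinal.{u}) (lam : Ordinal.{u}),
  Hyp δ₁ δ₀ K lam → ∀ β Q, K.ord < β → OnV lam β Q → ∀ E, EnW K β E →
    ∃ C, Clb K.ord C ∧ ∀ γ ∈ C, γ < K.ord → δ₁ ≤ γ.cof.ord →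
      HOD (XS β E γ) ∧ Ful (XS β E γ)

theorem Hyp.sj {δ₁ δ₀ : Ordinal.{u}} {K : Cardinal.{u}} {lam : Ordinal.{u}}
    (h : Hyp δ₁ δ₀ K lam) : ∃ f, Sj K lam f :=
  Pool.Agent.H47.HD.TH.exists_sj (le_antisymm (Order.lt_succ_iff.1 (Cardinal.lt_ord.1 h.hl))
    (Cardinal.ord_le.1 h.hk.le)) (bot_le.trans_lt h.hk)

theorem os_image {lam : Ordinal.{u}} {S : Set Ordinal.{u}} (hS : ∀ a ∈ S, a < lam)
    (h : HOD (os lam S)) : DS S := by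
  have h1 := h.od.ds
  have h2 : {a : Ordinal.{u} | a.toZFSet ∈ os lam S} = S := by
    ext a
    show a.toZFSet ∈ os lam S ↔ a ∈ S
    rw [ord_mem_os]
    exact ⟨fun h => h.2, fun h => ⟨hS a h, h⟩⟩
  rwa [h2] at h1

theorem pf_FC (hCR : T_CR.{u}) (hCLO : T_CLO.{u}) (hSW : T_SW.{u}) (hTB : T_TB.{u})
    (hKM : T_KM.{u}) (hFD : T_FD.{u}) : T_FC.{u} := by
  intro δ₁ δ₀ K lam hH β Q hβ hQ E hE
  obtain ⟨f, hf⟩ := hH.sj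
  have hKc : ℵ₀ < K.ord.cof := by rw [hH.kreg.cof_ord]; exact hH.kunc
  obtain ⟨C1, hC1, hC1'⟩ := hCLO K hH.kreg hH.kunc β hβ E hE
  obtain ⟨C2, hC2, hC2'⟩ := hSW K hH.kreg hH.kunc lam β f hf.lt hf.onto Q hQ E hE
  obtain ⟨C3, hC3, hC3'⟩ := hH.club f hf.lt hf.onto
  have hC0 : Clb K.ord (C1 ∩ (C2 ∩ C3)) := All.ci _ _ _ hKc hC1 (All.ci _ _ _ hKc hC2 hC3)
  obtain ⟨-, hT1, -, hT2⟩ := hTB β Q hQ.hod
  -- the sets are in HOD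
  have hHOD : ∀ γ ∈ C1 ∩ (C2 ∩ C3), γ < K.ord → δ₁ ≤ γ.cof.ord → HOD (XS β E γ) := by
    rintro γ ⟨-, h2, h3⟩ hγ hc
    rw [hC2' γ h2 hγ]
    exact hT2 _ (hC3' γ h3 hγ hc)
  -- small cofinalities
  have hA : ∃ C4, Clb K.ord C4 ∧ ∀ γ ∈ C4, γ < K.ord → δ₁ ≤ γ.cof.ord → γ.cof.ord < δ₀ →
      Ful (XS β E γ) := by
    by_contra hcon
    push Not at hcon
    obtain ⟨T, hTdef⟩ : ∃ T, T = ZFSet.sep (fun s => ¬ Ful (QI β Q s)) (PkHOD K.ord lam) :=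
      ⟨_, rfl⟩
    have hTs : T ⊆ PkHOD K.ord lam := by
      intro x hx
      rw [hTdef, ZFSet.mem_sep] at hx
      exact hx.1
    have hTH : HOD T := by
      refine Pool.Agent.H4.HD.FU.hod_sub ?_ hTs
      refine OD.of_mem (P := fun v => v 0 ∈ PkHOD K.ord lam ∧ ¬ Ful (QI β Q (v 0))) ?_ fun v => ?_
      · exact (Pool.Agent.H4.HD.FU.dz_pk _ _ 0).and hT1.not
      · rw [hTdef, ZFSet.mem_sep]
    obtain ⟨U, hU, hTU⟩ := hH.su f hf.lt hf.onto T hTH hTs (by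
      intro C hC
      obtain ⟨γ, h1, h2, h3, h4, h5⟩ := hcon _ (All.ci _ _ _ hKc hC hC0)
      refine ⟨γ, h1.1, h2, h3, h4, ?_⟩
      have hos := hC3' γ h1.2.2.2 h2 h3
      have hlt : ∀ a ∈ f '' Iio γ, a < lam := by
        rintro a ⟨ζ, hζ, rfl⟩
        exact hf.lt ζ (lt_trans hζ h2)
      rw [hTdef, ZFSet.mem_sep]
      refine ⟨Pool.Agent.H7.HDC.AP.pk_card (os_image hlt hos) hlt ⟨γ, h2, f, ?_⟩, ?_⟩
      · rintro a ⟨ζ, hζ, rfl⟩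
        exact ⟨ζ, hζ, rfl⟩
      · rw [← hC2' γ h1.2.2.1 h2]
        exact h5)
    have h2K : (2 : Ordinal.{u}) < K.ord := by
      have h := (Cardinal.isSuccLimit_ord hH.kunc.le).bot_lt
      have hω : ω ≤ K.ord := by
        rw [← Cardinal.ord_aleph0]
        exact Cardinal.ord_le_ord.2 hH.kunc.le
      exact (by exact_mod_cast Ordinal.natCast_lt_omega0 2 : (2 : Ordinal.{u}) < ω).trans_le hω
    rw [hTdef] at hTU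
    exact hKM K.ord lam β U Q h2K hU hQ hTU
  obtain ⟨C4, hC4, hC4'⟩ := hA
  have hD : Clb K.ord ((C1 ∩ (C2 ∩ C3)) ∩ C4) := All.ci _ _ _ hKc hC0 hC4
  set D := (C1 ∩ (C2 ∩ C3)) ∩ C4 with hDdef
  obtain ⟨C5, hC5, hC5'⟩ := hCR K hH.kreg hH.kunc (fun a _ c => a < c ∧ c ∈ D)
    (fun a ha _ _ => by
      obtain ⟨c, h1, h2, h3⟩ := hD.unb a ha
      exact ⟨c, h1, h2, h3⟩)
  refine ⟨D ∩ C5, All.ci _ _ _ hKc hD hC5, ?_⟩
  rintro γ ⟨h1, h2⟩ hγ hc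
  refine ⟨hHOD γ h1.1 hγ hc, ?_⟩
  by_cases h0 : γ.cof.ord < δ₀
  · exact hC4' γ h1.2 hγ hc h0
  push Not at h0
  obtain ⟨M, hM, hM1⟩ := hH.d1
  obtain ⟨h3, h4⟩ := hC5' γ h2 hγ
  have hcl : Clb γ D := by
    refine ⟨fun a ha => ?_, fun x hx h0 h => hD.cls x (hx.trans hγ) h0 h⟩
    obtain ⟨c, hc1, hc2, hc3⟩ := h4 a ha a ha
    exact ⟨c, hc1, hc2, hc3⟩
  refine hFD β γ M E hM ?_ (fun ζ hζ => hE.map ζ (hζ.trans hγ)) D hcl ?_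
  · rw [← Cardinal.ord_lt_ord, ← hM1]
    exact hH.d10.trans_le h0
  · intro g hg hgγ hgc
    have hgK := hgγ.trans hγ
    have hg1 : δ₁ ≤ g.cof.ord := by rw [hgc, hM1]
    refine ⟨hHOD g hg.1 hgK hg1, hC4' g hg.2 hgK hg1 ?_, ?_⟩
    · rw [hgc, ← hM1]
      exact hH.d10
    · exact (hC1' g hg.1.1 hgK).2.2.ext

end Pool.Agent.H52.XH
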