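import Pool.Agent.H52.XH.Targets
import Pool.Agent.H6.HD9.Y2
import Pool.Agent.H65.HD9.Y1
import Pool.Agent.H7.HD.All6

/-!
# Elementary embeddings which are elements of HOD: the size of `(V_ (K + 1))^HOD`
(MP_e37c09_lc)
-/

open Ordinal Cardinal Order Set
open scoped ZFSet

universe u

namespace Pool.Agent.H52.XH

open _root_.HD Pool.Agent.H54.WM
open Pool.Agent.H6.HD9.Y2 (Rp dr_Rp bb bb_eq dm Xa few_mono)

/-- GC. If HOD maps `lam` onto the set of its subsets of `K` then it maps `lam` onto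
`(V_ (K + 1))^HOD`. -/
def T_GC : Prop := ∀ K : Cardinal.{u}, K.IsRegular → ℵ₀ < K →
  (∀ τ < K.ord, ∃ β < K.ord, PowHOD τ β) → ∀ lam, PowHOD K.ord lam → ∃ Q, OnV lam (K.ord + 1) Q

/-- a set in HOD which numbers the elements of `(V_ K)^HOD` by ordinals less than `K` -/
theorem exists_num (K : Cardinal.{u}) (hK : K.IsRegular) (hK0 : ℵ₀ < K)
    (hP : ∀ τ < K.ord, ∃ β < K.ord, PowHOD τ β) : ∃ B : ZFSet.{u}, HOD B ∧
      (∀ w ∈ B, ∃ p < K.ord, ∃ z ∈ HV K.ord, w = ZFSet.pair p.toZFSet z) ∧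
      (∀ p z z', ZFSet.pair p z ∈ B → ZFSet.pair p z' ∈ B → z = z') ∧
      ∀ z ∈ HV K.ord, ∃ p < K.ord, ZFSet.pair p.toZFSet z ∈ B := by
  obtain ⟨t, htd, hinj, hlt⟩ := All.pr.{u}
  have hlim : IsSuccLimit K.ord := Cardinal.isSuccLimit_ord hK.aleph0_le
  have hfew : ∀ a, a < K.ord → ∃ τ < K.ord, (∀ i < τ, ∃ z, nth (Xa a) i z) ∧
      ∀ i z, nth (Xa a) i z → i < τ := by
    intro a ha
    apply Pool.Agent.H17.HD.XK.idx All.vh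
    refine few_mono ?_ (Pool.Agent.H65.HD9.Y1.X K hK hK0 hP (succ a) (hlim.succ_lt ha))
    rintro c ⟨h1, h2⟩
    refine ⟨h1, ?_⟩
    rw [ZFSet.mem_vonNeumann, h2]
    exact lt_succ a
  choose! th hth1 hth2 hth3 using hfew
  -- a bound of the codes
  obtain ⟨β, hβ⟩ : ∃ β : Ordinal.{u}, ∀ p < K.ord, ∀ c, Rp K t p c → c < β := by
    have h1 : ∀ p : Ordinal.{u}, ∃ c : Ordinal.{u}, ∀ c', Rp K t p c' → c' = c := by
      intro p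
      by_cases h : ∃ c, Rp K t p c
      · obtain ⟨c, hc⟩ := h
        exact ⟨c, fun c' hc' => hc'.uniq hinj hc⟩
      · exact ⟨0, fun c' hc' => absurd ⟨c', hc'⟩ h⟩
    choose g hg using h1
    have hbd : BddAbove (g '' Iio K.ord) := Ordinal.bddAbove_of_small
    obtain ⟨b, hb⟩ := hbd
    refine ⟨succ b, fun p hp c hc => ?_⟩
    rw [hg p c hc]
    exact lt_succ_of_le (hb ⟨p, hp, rfl⟩)
  set R := rs K.ord β (Rp K t) with hR
  have hRH : OD R := od_rs (dr_Rp htd) _ _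
  obtain ⟨B, hB⟩ : ∃ B : ZFSet.{u}, ∀ w, w ∈ B ↔ ∃ p < K.ord, ∃ c, Rp K t p c ∧
      w = ZFSet.pair p.toZFSet (_root_.HD.en c) := by
    refine ⟨ZFSet.sep (fun w => ∃ p < K.ord, ∃ c, Rp K t p c ∧
      w = ZFSet.pair p.toZFSet (_root_.HD.en c)) (ZFSet.prod K.ord.toZFSet (V_ K.ord)),
      fun w => ?_⟩
    rw [ZFSet.mem_sep]
    refine ⟨fun h => h.2, fun h => ⟨?_, h⟩⟩
    obtain ⟨p, hp, c, hc, rfl⟩ := h
    rw [ZFSet.pair_mem_prod]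
    refine ⟨toZFSet_mem_toZFSet_iff.2 hp, ?_⟩
    obtain ⟨a, ha, i, rfl, hi⟩ := hc
    rw [ZFSet.mem_vonNeumann, hi.1.2]
    exact ha
  have hel : ∀ w ∈ B, ∃ p < K.ord, ∃ z ∈ HV K.ord, w = ZFSet.pair p.toZFSet z := by
    intro w hw
    obtain ⟨p, hp, c, hc, rfl⟩ := (hB w).1 hw
    refine ⟨p, hp, _, mem_HV.2 ?_, rfl⟩
    obtain ⟨a, ha, i, rfl, hi⟩ := hc
    refine ⟨?_, hi.1.1⟩
    rw [ZFSet.mem_vonNeumann, hi.1.2]
    exact ha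
  refine ⟨B, hod_iff.2 ⟨?_, fun w hw => ?_⟩, hel, ?_, ?_⟩
  · refine OD.of_mem (P := fun v => ∃ p, ∃ c, ZFSet.pair p c ∈ R ∧ ∃ z,
      (c.IsOrdinal ∧ z = _root_.HD.en c.rank) ∧ v 0 = ZFSet.pair p z) ?_ fun v => ?_
    · refine DZ.od (R := fun R v => ∃ p, ∃ c, ZFSet.pair p c ∈ R ∧ ∃ z,
        (c.IsOrdinal ∧ z = _root_.HD.en c.rank) ∧ v 0 = ZFSet.pair p z) hRH ?_
      refine DZ.ex (R := fun p v => ∃ c, ZFSet.pair p c ∈ v 0 ∧ ∃ z,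
        (c.IsOrdinal ∧ z = _root_.HD.en c.rank) ∧ v 1 = ZFSet.pair p z) ?_
      refine DZ.ex (R := fun c v => ZFSet.pair (v 0) c ∈ v 1 ∧ ∃ z,
        (c.IsOrdinal ∧ z = _root_.HD.en c.rank) ∧ v 2 = ZFSet.pair (v 0) z) ?_
      refine (loc_pmem 1 0 2).dz.and ?_
      refine DZ.ex (R := fun z v => ((v 0).IsOrdinal ∧ z = _root_.HD.en (v 0).rank) ∧
        v 3 = ZFSet.pair (v 1) z) ?_
      exact (Pool.Agent.H6.HD9.Y2.dz_en2 1 0).and (loc_pair 4 2 0).dz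
    · rw [hB]
      constructor
      · rintro ⟨p, c, h1, z, ⟨-, rfl⟩, h2⟩
        obtain ⟨p', hp', c', hc', h3, h4⟩ := mem_rs.1 h1
        obtain ⟨rfl, rfl⟩ := ZFSet.pair_injective h4
        rw [rank_toZFSet] at h2
        exact ⟨p', hp', c', h3, h2⟩
      · rintro ⟨p, hp, c, hc, h⟩
        refine ⟨p.toZFSet, c.toZFSet, pair_mem_rs.2 ⟨hp, hβ p hp c hc, hc⟩, _,
          ⟨ZFSet.isOrdinal_toZFSet _, rfl⟩, ?_⟩
        rw [rank_toZFSet]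
        exact h
  · obtain ⟨p, hp, z, hz, rfl⟩ := hel w hw
    exact (HOD.ordinal p).pair (mem_HV.1 hz).2
  · intro p z z' h h'
    obtain ⟨p1, hp1, c1, hc1, h1⟩ := (hB _).1 h
    obtain ⟨p2, hp2, c2, hc2, h2⟩ := (hB _).1 h'
    obtain ⟨e1, rfl⟩ := ZFSet.pair_injective h1
    obtain ⟨e2, rfl⟩ := ZFSet.pair_injective h2
    have e3 := toZFSet_injective (e1.symm.trans e2)
    subst e3
    rw [hc1.uniq hinj hc2]
  · intro z hz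
    obtain ⟨hzV, hzH⟩ := mem_HV.1 hz
    rw [ZFSet.mem_vonNeumann] at hzV
    obtain ⟨c, hc⟩ := en_surj hzH.od
    have hcX : c ∈ Xa z.rank := ⟨by rw [hc]; exact hzH, by rw [hc]⟩
    obtain ⟨i, -, hi⟩ := (All.vh.{u} (Xa z.rank)).1 c hcX
    have hi2 : i < K.ord := (hth3 _ hzV i c hi).trans (hth1 _ hzV)
    have hR : Rp K t (t z.rank i) c := ⟨z.rank, hzV, i, rfl, hi⟩
    refine ⟨t z.rank i, hlt K hK.aleph0_le _ hzV _ hi2, (hB _).2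
      ⟨_, hlt K hK.aleph0_le _ hzV _ hi2, c, hR, by rw [hc]⟩⟩

theorem pf_GC : T_GC.{u} := by
  intro K hK hK0 hP lam hpow
  obtain ⟨B, hBH, hB1, hB2, hB3⟩ := exists_num K hK hK0 hP
  obtain ⟨F, y, hF, hFn, hF2⟩ := hpow
  -- the set coded by `x`
  have hD : ∀ x : ZFSet.{u}, ∃ z' : ZFSet.{u}, ∀ z, z ∈ z' ↔ ∃ p ∈ x, ZFSet.pair p z ∈ B := by
    intro x
    refine ⟨ZFSet.sep (fun z => ∃ p ∈ x, ZFSet.pair p z ∈ B) (HV K.ord), fun z => ?_⟩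
    rw [ZFSet.mem_sep]
    refine ⟨fun h => h.2, fun h => ⟨?_, h⟩⟩
    obtain ⟨p, -, h1⟩ := h
    obtain ⟨q, -, z1, hz1, h2⟩ := hB1 _ h1
    obtain ⟨-, rfl⟩ := ZFSet.pair_injective h2
    exact hz1
  choose D hD using hD
  have hDdz : DZ.{u} fun v => v 1 = D (v 0) := by
    refine (DZ.all (R := fun z v => z ∈ v 1 ↔ ∃ p ∈ v 0, ZFSet.pair p z ∈ B) ?_).congr
      fun v => ?_
    · refine (DZ.mem 0 2).iff ?_
      refine DZ.od (R := fun B v => ∃ p ∈ v 1, ZFSet.pair p (v 0) ∈ B) hBH.od ?_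
      exact DZ.exMem (R := fun p v => ZFSet.pair p (v 1) ∈ v 0) 2 (loc_pmem 0 2 1).dz
    · constructor
      · rintro h z
        rw [h, hD]
      · intro h
        ext z
        rw [h, hD]
  have hDV : ∀ x, HOD x → D x ∈ HV (K.ord + 1) := by
    intro x hx
    have hsub : ∀ z ∈ D x, z ∈ HV K.ord := by
      intro z hz
      obtain ⟨p, -, h1⟩ := (hD x z).1 hz
      obtain ⟨q, -, z1, hz1, h2⟩ := hB1 _ h1
      obtain ⟨-, rfl⟩ := ZFSet.pair_injective h2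
      exact hz1
    refine mem_HV.2 ⟨?_, hod_iff.2 ⟨?_, fun z hz => (mem_HV.1 (hsub z hz)).2⟩⟩
    · rw [ZFSet.mem_vonNeumann, Order.lt_add_one_iff, ZFSet.rank_le_iff]
      intro z hz
      exact rank_lt_of_HV (hsub z hz)
    · refine OD.of_mem (P := fun v => ∃ p ∈ x, ZFSet.pair p (v 0) ∈ B) ?_ fun v => (hD x _).symm
      refine DZ.od (R := fun B v => ∃ p ∈ x, ZFSet.pair p (v 0) ∈ B) hBH.od ?_
      refine DZ.od (R := fun x v => ∃ p ∈ x, ZFSet.pair p (v 1) ∈ v 0) hx.od ?_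
      exact DZ.exMem (R := fun p v => ZFSet.pair p (v 2) ∈ v 1) 0 (loc_pmem 0 3 2).dz
  have hFx : ∀ b x, ZFSet.pair b x ∈ F → HOD x := fun b x h => (HOD_of_pair (HOD_tra _ hF _ h)).2
  obtain ⟨Q, hQ⟩ : ∃ Q : ZFSet.{u}, ∀ w, w ∈ Q ↔ ∃ b x, ZFSet.pair b x ∈ F ∧
      w = ZFSet.pair b (D x) := by
    refine ⟨ZFSet.sep (fun w => ∃ b x, ZFSet.pair b x ∈ F ∧ w = ZFSet.pair b (D x))
      (ZFSet.prod lam.toZFSet (HV (K.ord + 1))), fun w => ?_⟩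
    rw [ZFSet.mem_sep]
    refine ⟨fun h => h.2, fun h => ⟨?_, h⟩⟩
    obtain ⟨b, x, h1, rfl⟩ := h
    rw [ZFSet.pair_mem_prod]
    exact ⟨(ZFSet.pair_mem_prod.1 (hFn.1 h1)).1, hDV x (hFx b x h1)⟩
  have hQp : ∀ b z, ZFSet.pair b z ∈ Q ↔ ∃ x, ZFSet.pair b x ∈ F ∧ z = D x := by
    intro b z
    rw [hQ]
    constructor
    · rintro ⟨b', x, h1, h2⟩
      obtain ⟨rfl, rfl⟩ := ZFSet.pair_injective h2
      exact ⟨x, h1, rfl⟩
    · rintro ⟨x, h1, rfl⟩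
      exact ⟨b, x, h1, rfl⟩
  refine ⟨Q, hod_iff.2 ⟨?_, ?_⟩, ⟨?_, ?_⟩, ?_⟩
  · refine OD.of_mem (P := fun v => ∃ b x, ZFSet.pair b x ∈ F ∧ ∃ z, z = D x ∧
      v 0 = ZFSet.pair b z) ?_ fun v => ?_
    · refine DZ.od (R := fun F v => ∃ b x, ZFSet.pair b x ∈ F ∧ ∃ z, z = D x ∧
        v 0 = ZFSet.pair b z) hF.od ?_
      refine DZ.ex (R := fun b v => ∃ x, ZFSet.pair b x ∈ v 0 ∧ ∃ z, z = D x ∧
        v 1 = ZFSet.pair b z) ?_
      refine DZ.ex (R := fun x v => ZFSet.pair (v 0) x ∈ v 1 ∧ ∃ z, z = D x ∧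
        v 2 = ZFSet.pair (v 0) z) ?_
      refine (loc_pmem 1 0 2).dz.and ?_
      refine DZ.ex (R := fun z v => z = D (v 0) ∧ v 3 = ZFSet.pair (v 1) z) ?_
      refine DZ.and ?_ (loc_pair 4 2 0).dz
      exact hDdz.ren fun n => if n = 0 then 1 else 0
    · rw [hQ]
      constructor
      · rintro ⟨b, x, h1, z, rfl, h2⟩
        exact ⟨b, x, h1, h2⟩
      · rintro ⟨b, x, h1, h2⟩
        exact ⟨b, x, h1, _, rfl, h2⟩
  · intro w hw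
    obtain ⟨b, x, h1, rfl⟩ := (hQ w).1 hw
    exact (HOD_of_pair (HOD_tra _ hF _ h1)).1.pair (mem_HV.1 (hDV x (hFx b x h1))).2
  · intro w hw
    obtain ⟨b, x, h1, rfl⟩ := (hQ w).1 hw
    exact ZFSet.pair_mem_prod.2 ⟨(ZFSet.pair_mem_prod.1 (hFn.1 h1)).1, hDV x (hFx b x h1)⟩
  · intro b hb
    obtain ⟨x, hx, hu⟩ := hFn.2 b hb
    refine ⟨D x, (hQp _ _).2 ⟨x, hx, rfl⟩, fun z hz => ?_⟩
    obtain ⟨x', hx', rfl⟩ := (hQp _ _).1 hz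
    rw [hu x' hx']
  · intro z hz
    obtain ⟨hzV, hzH⟩ := mem_HV.1 hz
    have hzK : ∀ w ∈ z, w ∈ HV K.ord := by
      intro w hw
      refine mem_HV.2 ⟨?_, (hod_iff.1 hzH).2 w hw⟩
      rw [ZFSet.mem_vonNeumann]
      exact (ZFSet.rank_lt_of_mem hw).trans_le
        (Order.lt_add_one_iff.1 (ZFSet.mem_vonNeumann.1 hzV))
    -- the numbers of the elements of `z`
    obtain ⟨S, hS⟩ : ∃ S, S = ZFSet.sep (fun p => ∃ w ∈ z, ZFSet.pair p w ∈ B) K.ord.toZFSet :=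
      ⟨_, rfl⟩
    have hSs : S ⊆ K.ord.toZFSet := fun p hp => by
      rw [hS, ZFSet.mem_sep] at hp
      exact hp.1
    have hSH : HOD S := by
      refine HOD.of_sub ?_ hSs
      refine OD.of_mem (P := fun v => v 0 ∈ K.ord.toZFSet ∧ ∃ w ∈ z, ZFSet.pair (v 0) w ∈ B) ?_
        fun v => ?_
      · refine DZ.od (R := fun k v => v 0 ∈ k ∧ ∃ w ∈ z, ZFSet.pair (v 0) w ∈ B)
          (OD.ordinal K.ord) ?_
        refine DZ.od (R := fun z v => v 1 ∈ v 0 ∧ ∃ w ∈ z, ZFSet.pair (v 1) w ∈ B) hzH.od ?_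
        refine DZ.od (R := fun B v => v 2 ∈ v 1 ∧ ∃ w ∈ v 0, ZFSet.pair (v 2) w ∈ B) hBH.od ?_
        exact (DZ.mem 3 2).and (DZ.exMem (R := fun w v => ZFSet.pair (v 3) w ∈ v 0) 1
          (loc_pmem 4 0 1).dz)
      · rw [hS, ZFSet.mem_sep]
    obtain ⟨b, hb, hbF⟩ := hF2 S hSH hSs
    refine ⟨b, hb, (hQp _ _).2 ⟨S, hbF, ?_⟩⟩
    ext w
    rw [hD]
    constructor
    · intro hw
      obtain ⟨p, hp, hpB⟩ := hB3 w (hzK w hw)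
      refine ⟨p.toZFSet, ?_, hpB⟩
      rw [hS, ZFSet.mem_sep]
      exact ⟨toZFSet_mem_toZFSet_iff.2 hp, w, hw, hpB⟩
    · rintro ⟨p, hp, hpB⟩
      rw [hS, ZFSet.mem_sep] at hp
      obtain ⟨-, w', hw', hpB'⟩ := hp
      rw [hB2 p w w' hpB hpB']
      exact hw'

end Pool.Agent.H52.XH
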