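import Pool.Agent.H52.XH.Targets
import Pool.Agent.H54.CL.Types

/-!
# Elementary embeddings which are elements of HOD: the successor of `K` in HOD (MP_e37c09_lc)
-/

open Ordinal Cardinal Order Set
open scoped ZFSet

universe u

namespace Pool.Agent.H52.XH

open _root_.HD Pool.Agent.H54.WM

/-- HS. No other regular cardinals of HOD. -/
def T_HS : Prop := ∀ K : Cardinal.{u}, K.IsRegular → ℵ₀ < K → ∀ τ, K.ord ≤ τ → τ < hs K.ord →
  RegHOD τ → τ = K.ord

theorem pf_HS : T_HS.{u} := by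
  intro K hK hK0 τ h1 h2 h3
  by_contra hne
  have h4 : K.ord < τ := lt_of_le_of_ne h1 (Ne.symm hne)
  exact h3.2 (Pool.Agent.H54.CL.sing_of_onto h4
    (Pool.Agent.H54.CL.onto_of_lt_hs (bot_le.trans_lt h4) h2))

end Pool.Agent.H52.XH
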