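import Pool.Agent.H52.XH.EX
import Pool.Agent.H52.XH.HS
import Pool.Agent.H52.XH.GC
import Pool.Agent.H7.HD9.Asm9

/-!
# Elementary embeddings which are elements of HOD: the theorem (MP_e37c09_lc)
-/

open Ordinal Cardinal Order Set
open scoped ZFSet

universe u

namespace Pool.Agent.H52.XH

open _root_.HD Pool.Agent.H54.WM

/-- The theorem. -/
def T_FIN : Prop := ∀ δ : Ordinal.{u}, Extendible δ → CaseA δ ∨ ∀ l < δ, ∃ δ₁ δ₀,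
  l < δ₁ ∧ δ₁ < δ₀ ∧ δ₀ < δ ∧
    (∀ K : Cardinal.{u}, K.IsRegular → δ₀ < K.ord →
      ((hs K.ord).cof = ℵ₀ ∨ ((hs K.ord).cof = K ∧ Ext δ₁ K (hs K.ord))) ∧
      (∀ lam, PowHOD K.ord lam → ∃ Q, OnV lam (K.ord + 1) Q) ∧
      ∀ lam, RegHOD lam → K.ord < lam → δ₁ < lam.cof.ord → ¬ Sprd δ₁ K.ord lam →
        Ext δ₁ K lam) ∧
    (∀ lam, RegHOD lam → δ < lam → δ₁ < lam.cof.ord → ¬ Sprd δ₁ δ lam → Amn δ lam) ∧
    ((hs δ).cof = ℵ₀ ∨ Amn δ (hs δ))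

theorem hyp_of {D' D : Cardinal.{u}} (hD' : GoodN D') (hW' : GoodW D') (hD : GoodN D)
    (hDD : D' < D) {K : Cardinal.{u}} (hK : K.IsRegular) (hDK : D.ord < K.ord) {lam : Ordinal.{u}}
    (hreg : RegHOD lam) (hκ : K.ord < lam) (hcf : D'.ord < lam.cof.ord)
    (hsp : ¬ Sprd D'.ord K.ord lam) : Hyp D'.ord D.ord K lam := by
  have h := (All.loc hD' hW' hD hDD hreg hκ hcf).resolve_left hsp
  obtain ⟨h1, h2, h3⟩ := h.nrm K hK rfl hDK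
  exact ⟨hK, hD.2.2.1.trans (Cardinal.ord_lt_ord.1 hDK), ⟨D', hD'.1, rfl⟩,
    Cardinal.ord_lt_ord.2 hDD, hDK, hκ, h1, h2, h3⟩

theorem not_sprd (hHS : T_HS.{u}) {δ₁ : Ordinal.{u}} (hδ₁ : (ℵ₀ : Cardinal.{u}).ord < δ₁)
    {K : Cardinal.{u}} (hK : K.IsRegular) (hK0 : ℵ₀ < K) : ¬ Sprd δ₁ K.ord (hs K.ord) := by
  intro h
  obtain ⟨τ, h1, h2, h3, h4⟩ := h ℵ₀ Cardinal.isRegular_aleph0 hδ₁
  rw [hHS K hK hK0 τ h1 h2 h3, hK.cof_ord] at h4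
  exact hK0.ne' h4

theorem two_types {D' K : Cardinal.{u}} (hD' : GoodN D') (hW' : GoodW D') (hK : K.IsRegular)
    (hDK : succ D' < K) : (hs K.ord).cof = ℵ₀ ∨ (hs K.ord).cof = K := by
  have hB := All.bA D' hD' hW'
  have hK0 : ℵ₀ < K := hB.dunc.trans_le ((le_succ D').trans hDK.le)
  obtain ⟨τ₀, g1, -, g3, -, g5, g6⟩ := fin_tau All.rr All.sp All.th hD' hK
    ((lt_succ D').trans hDK)
  have := Pool.Agent.H54.CL.two_types hK0 hK (All.ac D' D' K hB hK hDK)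
    ⟨τ₀, g1, g3, g5, fun lam g1 g2 g3 => (g6 lam g1 g2 g3).1⟩
  exact this.imp (fun h => h.1) fun h => h.1

theorem pf_FIN (hEX : T_EX.{u}) (hHS : T_HS.{u}) (hGC : T_GC.{u}) (hJL : T_JL.{u})
    (hJG : T_JG.{u}) : T_FIN.{u} := by
  intro δ hδ
  by_cases hA : CaseA δ
  · exact Or.inl hA
  refine Or.inr fun l hl => ?_
  obtain ⟨D', h1, h2, h3, h4⟩ := All.gr δ hδ hA l hl
  obtain ⟨D, g1, g2, g3, g4⟩ := All.gr δ hδ hA D'.ord h1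
  obtain ⟨η₀, -, θ₀, j₀, hj₀⟩ := All.xa δ hδ 0
  obtain ⟨Δ, hΔ, hΔr, hΔs, hΔ0⟩ := All.xb δ η₀ θ₀ j₀ hj₀
  have hDD : D' < D := Cardinal.ord_lt_ord.1 g2
  have hsD : succ D' < D := by
    have := g3.2.1.isSuccLimit
    exact this.succ_lt hDD
  have hω : (ℵ₀ : Cardinal.{u}).ord < D'.ord := Cardinal.ord_lt_ord.2 h3.2.2.1
  have hts : ∀ K : Cardinal.{u}, K.IsRegular → D.ord < K.ord →
      ((hs K.ord).cof = ℵ₀ ∨ ((hs K.ord).cof = K ∧ Hyp D'.ord D.ord K (hs K.ord))) := by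
    intro K hK hDK
    have hDK' := Cardinal.ord_lt_ord.1 hDK
    have hK0 : ℵ₀ < K := g3.2.2.1.trans hDK'
    refine (two_types h3 h4 hK (hsD.trans hDK')).imp id fun h => ⟨h, ?_⟩
    refine hyp_of h3 h4 g3 hDD hK hDK (Pool.Agent.H54.CL.hs_reg hK0.le)
      (Pool.Agent.H54.CL.hs_gt _) ?_ (not_sprd hHS hω hK hK0)
    rw [h]
    exact g2.trans hDK
  have hamn : ∀ lam, Hyp D'.ord D.ord Δ lam → Amn δ lam := by
    rintro lam hH b ⟨Q, hQ⟩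
    obtain ⟨f, hf⟩ := hH.sj
    obtain ⟨C, hC, hC'⟩ := hH.club f hf.lt hf.onto
    rw [hΔ] at h1 g1 ⊢
    obtain ⟨β₁, hβ₁⟩ := hJL D'.ord Δ.ord lam C f h1 hC hf.lt hf.onto hC'
    obtain ⟨β₂, hβ₂⟩ := hJG Δ.ord lam b Q hQ
    refine ⟨max β₁ β₂, fun η hη θ j hj => ?_⟩
    exact hβ₂ η ((le_max_right _ _).trans_lt hη) θ j hj
      (hβ₁ η ((le_max_left _ _).trans_lt hη) θ j hj)
  refine ⟨D'.ord, D.ord, h2, g2, g1, fun K hK hDK => ⟨?_, ?_, fun lam k1 k2 k3 k4 => ?_⟩,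
    fun lam k1 k2 k3 k4 => ?_, ?_⟩
  · exact (hts K hK hDK).imp id fun h => ⟨h.1, hEX _ _ K _ h.2⟩
  · have hDK' := Cardinal.ord_lt_ord.1 hDK
    exact hGC K hK (g3.2.2.1.trans hDK') (All.pk D' D' K (All.bA D' h3 h4) hK (hDD.trans hDK'))
  · exact hEX _ _ K lam (hyp_of h3 h4 g3 hDD hK hDK k1 k2 k3 k4)
  · rw [hΔ] at k2 k4 g1
    exact hamn lam (hyp_of h3 h4 g3 hDD hΔr g1 k1 k2 k3 k4)
  · rw [hΔ] at g1
    have := hts Δ hΔr g1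
    rw [← hΔ] at this
    exact this.imp id fun h => hamn _ h.2

end Pool.Agent.H52.XH
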