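import Pool.Agent.H52.XH.Defs

/-!
# Elementary embeddings which are elements of HOD: targets (MP_e37c09_lc)
-/

open Ordinal Cardinal Order Set
open scoped ZFSet

universe u

namespace Pool.Agent.H52.XH

open _root_.HD Pool.Agent.H54.WM

/-! ## Club sets -/

/-- CR. Closure under a relation. -/
def T_CR : Prop := ∀ K : Cardinal.{u}, K.IsRegular → ℵ₀ < K →
  ∀ R : Ordinal.{u} → Ordinal.{u} → Ordinal.{u} → Prop,
    (∀ a < K.ord, ∀ b < K.ord, ∃ c < K.ord, R a b c) →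
      ∃ C, Clb K.ord C ∧ ∀ γ ∈ C, γ < K.ord → 0 < γ ∧ ∀ a < γ, ∀ b < γ, ∃ c < γ, R a b c

/-- CLO. Almost all sets `E '' γ` are closed under the functions which are needed. -/
def T_CLO : Prop := ∀ K : Cardinal.{u}, K.IsRegular → ℵ₀ < K → ∀ β, K.ord < β → ∀ E, EnW K β E →
  ∃ C, Clb K.ord C ∧ ∀ γ ∈ C, γ < K.ord → IsSuccLimit γ ∧
    (∀ η < K.ord, β = K.ord + η → η < γ) ∧ Gx K.ord β γ (XS β E γ)

/-- SW. Almost all sets `E '' γ` are `Q '' (f '' γ)`. -/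
def T_SW : Prop := ∀ K : Cardinal.{u}, K.IsRegular → ℵ₀ < K → ∀ (lam β : Ordinal.{u})
  (f : Ordinal.{u} → Ordinal.{u}), (∀ ζ < K.ord, f ζ < lam) → (∀ a < lam, ∃ ζ < K.ord, f ζ = a) →
  ∀ Q, OnV lam β Q → ∀ E, EnW K β E → ∃ C, Clb K.ord C ∧ ∀ γ ∈ C, γ < K.ord →
    XS β E γ = QI β Q (os lam (f '' Iio γ))

/-! ## Normal ultrafilters of HOD -/

/-- UB. Basic facts. -/
def T_UB : Prop := ∀ (κ lam : Ordinal.{u}) (U : ZFSet.{u}), 2 < κ → HSup κ lam U →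
  (∀ x ∈ U, ∀ y ∈ U, x ∩ y ∈ U) ∧ (∀ x ∈ U, ∃ s, s ∈ x) ∧
  ∀ P : ZFSet.{u} → Prop, (DZ fun v => P (v 0)) → HOD (ZFSet.sep P (PkHOD κ lam)) ∧
    (ZFSet.sep P (PkHOD κ lam) ∉ U → ZFSet.sep (fun s => ¬ P s) (PkHOD κ lam) ∈ U)

/-- REG. Definable regressive relations. -/
def T_REG : Prop := ∀ (κ lam : Ordinal.{u}) (U : ZFSet.{u}), HSup κ lam U →
  ∀ R : ZFSet.{u} → Ordinal.{u} → Prop, (DZ fun v => (v 1).IsOrdinal ∧ R (v 0) (v 1).rank) →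
    ZFSet.sep (fun s => ∃ a : Ordinal.{u}, a.toZFSet ∈ s ∧ R s a) (PkHOD κ lam) ∈ U →
      ∃ a < lam, ZFSet.sep (fun s => R s a) (PkHOD κ lam) ∈ U

/-- COH. Definable subsets cohere. -/
def T_COH : Prop := ∀ (κ lam : Ordinal.{u}) (U : ZFSet.{u}), 2 < κ → HSup κ lam U →
  ∀ R : ZFSet.{u} → Ordinal.{u} → Prop, (DZ fun v => (v 1).IsOrdinal ∧ R (v 0) (v 1).rank) →
    ∃ A, HOD A ∧ A ⊆ lam.toZFSet ∧
      ZFSet.sep (fun s => ∀ a : Ordinal.{u}, a.toZFSet ∈ s → (R s a ↔ a.toZFSet ∈ A))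
        (PkHOD κ lam) ∈ U

/-- UNI. Definable choice. -/
def T_UNI : Prop := ∀ G : ZFSet.{u} → ZFSet.{u} → Prop, (DZ fun v => G (v 0) (v 1)) →
  ∃ Z : ZFSet.{u} → ZFSet.{u}, (∀ s z, HOD z → G s z → HOD (Z s) ∧ G s (Z s)) ∧
    DZ fun v => v 1 = Z (v 0)

/-- TB. Definability of fullness. -/
def T_TB : Prop := ∀ (β : Ordinal.{u}) (Q : ZFSet.{u}), HOD Q →
  (DZ fun v => Cex (QI β Q (v 0)) (v 1)) ∧ (DZ fun v => Ful (QI β Q (v 0))) ∧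
  (DZ fun v => v 1 = QI β Q (v 0)) ∧ ∀ s, HOD s → HOD (QI β Q s)

/-- KM. Almost all sets `Q '' s` are full. -/
def T_KM : Prop := ∀ (κ lam β : Ordinal.{u}) (U Q : ZFSet.{u}), 2 < κ → HSup κ lam U →
  OnV lam β Q → ZFSet.sep (fun s => ¬ Ful (QI β Q s)) (PkHOD κ lam) ∉ U

/-- FD. Fullness at points of greater cofinality. -/
def T_FD : Prop := ∀ (β γ : Ordinal.{u}) (M : Cardinal.{u}) (E : Ordinal.{u} → ZFSet.{u}),
  M.IsRegular → M < γ.cof → (∀ ζ < γ, E ζ ∈ HV β) → ∀ C, Clb γ C →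
  (∀ g ∈ C, g < γ → g.cof = M → HOD (XS β E g) ∧ Ful (XS β E g) ∧
    ∀ x ∈ XS β E g, ∀ y ∈ XS β E g, (∀ z ∈ XS β E g, z ∈ x ↔ z ∈ y) → x = y) →
  Ful (XS β E γ)

/-! ## The collapse -/

/-- CP. The collapse is an isomorphism. -/
def T_CP : Prop := ∀ X : ZFSet.{u},
  (∀ x ∈ X, ∀ y ∈ X, (∀ z ∈ X, z ∈ x ↔ z ∈ y) → x = y) →
    (∀ x ∈ X, ∀ y ∈ X, cps X x = cps X y → x = y) ∧
    ∀ x ∈ X, ∀ y ∈ X, cps X x ∈ cps X y ↔ x ∈ y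

/-- OC. The collapse of ordinals. -/
def T_OC : Prop := ∀ X : ZFSet.{u}, (∀ a : Ordinal.{u}, cps X a.toZFSet = (oc X a).toZFSet) ∧
  (∀ a b : Ordinal.{u}, a.toZFSet ∈ X → a < b → oc X a < oc X b) ∧
  ∀ b c : Ordinal.{u}, c < oc X b → ∃ a < b, a.toZFSet ∈ X ∧ oc X a = c

/-- OV. The values at some ordinals. -/
def T_OV : Prop := ∀ (κ β γ : Ordinal.{u}) (X : ZFSet.{u}), Gx κ β γ X → γ ≤ κ → κ < β →
  (∀ a ≤ γ, oc X a = a) ∧ oc X κ = γ ∧ ∀ η ≤ γ, κ + η ≤ β → oc X (κ + η) = γ + η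

/-- OB. The order type is small. -/
def T_OB : Prop := ∀ (K : Cardinal.{u}) (β : Ordinal.{u}) (E : Ordinal.{u} → ZFSet.{u})
  (γ : Ordinal.{u}), γ < K.ord → ∀ b, oc (XS β E γ) b < K.ord

/-- RK. The rank of the collapse. -/
def T_RK : Prop := ∀ (κ β γ : Ordinal.{u}) (X : ZFSet.{u}), Gx κ β γ X → ∀ x ∈ X,
  (cps X x).rank = oc X x.rank

/-- LW. The sets of rank less than `γ` are not moved. -/
def T_LW : Prop := ∀ (κ β γ : Ordinal.{u}) (X : ZFSet.{u}), Gx κ β γ X → γ ≤ κ → Ful X →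
  ∀ x ∈ HV γ, x ∈ X ∧ cps X x = x

/-- CD. Definability of the collapse. -/
def T_CD : Prop := ∀ X : ZFSet.{u}, HOD X → (∀ x, HOD x → HOD (cps X x)) ∧
  DZ fun v => v 1 = cps X (v 0)

/-- IM. The image of the collapse of a full set. -/
def T_IM : Prop := ∀ (κ β γ : Ordinal.{u}) (X : ZFSet.{u}), Gx κ β γ X → HOD X → Ful X →
  ∀ y, y ∈ HV (oc X β) ↔ ∃ x ∈ X, cps X x = y

/-- EM. The embedding. -/
def T_EM : Prop := ∀ (κ β γ : Ordinal.{u}) (X : ZFSet.{u}), Gx κ β γ X → γ ≤ κ → κ < β → HOD X →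
  Ful X → HExt γ κ (oc X β) β (cj X) ∧ ∀ y, (∃ x, ZFSet.pair x y ∈ cj X) ↔ y ∈ X

/-- CM. The embeddings commute. -/
def T_CM : Prop := ∀ (γ γ' κ b b' β : Ordinal.{u}) (j j' : ZFSet.{u}), HExt γ κ b β j →
  HExt γ' κ b' β j' → γ ≤ γ' → (∀ y, (∃ x, ZFSet.pair x y ∈ j) → ∃ x, ZFSet.pair x y ∈ j') →
    ∃ k, HExt γ γ' b b' k ∧
      ∀ x y z, ZFSet.pair x y ∈ k → ZFSet.pair y z ∈ j' → ZFSet.pair x z ∈ j

/-! ## Extendibility embeddings of `V` -/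

/-- JL. The restriction of `j` to `lam`. -/
def T_JL : Prop := ∀ (δ₁ δ lam : Ordinal.{u}) (C : Set Ordinal.{u})
  (f : Ordinal.{u} → Ordinal.{u}), δ₁ < δ → Clb δ C → (∀ ζ < δ, f ζ < lam) →
  (∀ a < lam, ∃ ζ < δ, f ζ = a) →
  (∀ γ ∈ C, γ < δ → δ₁ ≤ γ.cof.ord → HOD (os lam (f '' Iio γ))) →
    ∃ β, ∀ η > β, ∀ (θ : Ordinal.{u}) (j : ZFSet.{u} → ZFSet.{u}), Emb δ η θ j →
      DR fun a b => a < lam ∧ b = Jo j a

/-- JG. The restriction of `j` to `(V_ b)^HOD`. -/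
def T_JG : Prop := ∀ (δ lam b : Ordinal.{u}) (Q : ZFSet.{u}), OnV lam b Q →
  ∃ β, ∀ η > β, ∀ (θ : Ordinal.{u}) (j : ZFSet.{u} → ZFSet.{u}), Emb δ η θ j →
    (DR fun a b => a < lam ∧ b = Jo j a) → HOD (gj j (HV b))

end Pool.Agent.H52.XH
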